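import Pool.Agent.Helper33.KSZ.ZetaNear
import Pool.Agent.Helper67.KSZ.ZetaC

/-! KSZ A10: zero-free region with a large constant. -/

set_option autoImplicit false
open Filter Topology Complex Metric

namespace Pool.Agent.Helper33.KSZ

open Pool.Agent.Helper10.QRH Pool.Agent.Helper69.QRH

lemma zeta_lower : ∃ c : ℝ, 0 < c ∧ ∀ s : ℂ, 1 < s.re → s.re ≤ 2 →
    c * (s.re - 1) ≤ ‖riemannZeta s‖ := by
  have hcont : ContinuousOn (fun σ : ℝ => EZ (σ : ℂ)) (Set.Icc 1 2) :=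
    (EZ_differentiable.continuous.comp Complex.continuous_ofReal).continuousOn
  obtain ⟨C, hC⟩ := isCompact_Icc.exists_bound_of_continuousOn hcont
  have hCpos : 0 < |C| + 1 := by positivity
  refine ⟨1 / (|C| + 1), by positivity, fun s h1 h2 => ?_⟩
  have hs0 : 0 < s.re - 1 := by linarith
  set σ := s.re with hσ
  have hσ1 : 1 < ((σ : ℝ) : ℂ).re := by simpa using h1
  have hmul := ArithmeticFunction.LSeries_zeta_mul_Lseries_moebius h1
  rw [ArithmeticFunction.LSeries_zeta_eq_riemannZeta h1] at hmul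
  -- bound of the Moebius series
  have hmu : ‖LSeries (fun n => ((ArithmeticFunction.moebius n : ℤ) : ℂ)) s‖ ≤
      ‖riemannZeta (σ : ℂ)‖ := by
    have hsum : Summable (fun n : ℕ => ‖LSeries.term (fun n => ((ArithmeticFunction.zeta n : ℕ) : ℂ))
        (σ : ℂ) n‖) := (ArithmeticFunction.LSeriesSummable_zeta_iff.2 hσ1).norm
    have hz : ∑' n : ℕ, ‖LSeries.term (fun n => ((ArithmeticFunction.zeta n : ℕ) : ℂ)) (σ : ℂ) n‖ =
        ‖riemannZeta (σ : ℂ)‖ := by
      have h3 : ∀ n : ℕ, LSeries.term (fun n => ((ArithmeticFunction.zeta n : ℕ) : ℂ)) (σ : ℂ) n =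
          ((‖LSeries.term (fun n => ((ArithmeticFunction.zeta n : ℕ) : ℂ)) (σ : ℂ) n‖ : ℝ) : ℂ) := by
        intro n
        rcases eq_or_ne n 0 with rfl | hn
        · simp
        · rw [LSeries.norm_term_eq, LSeries.term_of_ne_zero hn, if_neg hn,
            ArithmeticFunction.zeta_apply_ne hn, Complex.ofReal_re]
          have h4 : ((n : ℂ)) = (((n : ℝ)) : ℂ) := by push_cast; rfl
          rw [h4, ← Complex.ofReal_cpow (Nat.cast_nonneg n)]
          simp
      have h5 : riemannZeta (σ : ℂ) =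
          ((∑' n : ℕ, ‖LSeries.term (fun n => ((ArithmeticFunction.zeta n : ℕ) : ℂ)) (σ : ℂ) n‖ : ℝ)
            : ℂ) := by
        rw [← ArithmeticFunction.LSeries_zeta_eq_riemannZeta hσ1, LSeries, Complex.ofReal_tsum]
        exact tsum_congr h3
      rw [h5, Complex.norm_real, Real.norm_eq_abs, abs_of_nonneg]
      exact tsum_nonneg fun n => norm_nonneg _
    rw [← hz, LSeries]
    have hle : ∀ n : ℕ, ‖LSeries.term (fun n => ((ArithmeticFunction.moebius n : ℤ) : ℂ)) s n‖ ≤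
        ‖LSeries.term (fun n => ((ArithmeticFunction.zeta n : ℕ) : ℂ)) (σ : ℂ) n‖ := by
      intro n
      rw [LSeries.norm_term_eq, LSeries.norm_term_eq]
      rcases eq_or_ne n 0 with rfl | hn
      · simp
      · rw [if_neg hn, if_neg hn, Complex.ofReal_re, ArithmeticFunction.zeta_apply_ne hn]
        have h6 : ‖(((ArithmeticFunction.moebius n : ℤ)) : ℂ)‖ ≤ 1 := by
          rw [Complex.norm_intCast]
          exact_mod_cast ArithmeticFunction.abs_moebius_le_one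
        have h7 : ‖(((1 : ℕ)) : ℂ)‖ = 1 := by simp
        rw [h7]
        gcongr
    exact tsum_of_norm_bounded hsum.hasSum hle
  have hEZ : ‖riemannZeta (σ : ℂ)‖ * (σ - 1) ≤ |C| + 1 := by
    have h3 : (σ : ℂ) ≠ 1 := by
      intro h
      have := congrArg Complex.re h
      rw [Complex.ofReal_re, Complex.one_re] at this
      linarith
    have h4 := hC σ ⟨h1.le, h2⟩
    rw [EZ_eq h3, norm_mul] at h4
    have h5 : ‖(σ : ℂ) - 1‖ = σ - 1 := by
      have : (σ : ℂ) - 1 = ((σ - 1 : ℝ) : ℂ) := by push_cast; ring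
      rw [this, Complex.norm_real, Real.norm_eq_abs, abs_of_pos hs0]
    rw [h5] at h4
    have := le_abs_self C
    linarith
  have h6 : 1 ≤ ‖riemannZeta s‖ * ‖riemannZeta (σ : ℂ)‖ := by
    have h7 : ‖riemannZeta s * LSeries (fun n => ((ArithmeticFunction.moebius n : ℤ) : ℂ)) s‖ = 1 := by
      rw [hmul, norm_one]
    rw [norm_mul] at h7
    rw [← h7]
    exact mul_le_mul_of_nonneg_left hmu (norm_nonneg _)
  rw [div_mul_eq_mul_div, one_mul, div_le_iff₀ hCpos]
  calc σ - 1 ≤ (σ - 1) * (‖riemannZeta s‖ * ‖riemannZeta (σ : ℂ)‖) :=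
        le_mul_of_one_le_right hs0.le h6
    _ = ‖riemannZeta s‖ * (‖riemannZeta (σ : ℂ)‖ * (σ - 1)) := by ring
    _ ≤ ‖riemannZeta s‖ * (|C| + 1) := by gcongr

/-- growth conditions in terms of `L = log γ` -/
lemma large_conditions (A : ℝ) (hA : 0 < A) : ∀ᶠ γ : ℝ in atTop,
    A ≤ γ ∧ A ≤ Real.log γ ∧ A ≤ Real.log (Real.log γ) ∧
      A * Real.log (Real.log γ) ≤ Real.log γ := by
  have h1 : Tendsto Real.log atTop atTop := Real.tendsto_log_atTop
  have h2 : Tendsto (fun γ => Real.log (Real.log γ)) atTop atTop := h1.comp h1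
  have h3 : ∀ᶠ L : ℝ in atTop, A * Real.log L ≤ L := by
    have h4 : Tendsto (fun x : ℝ => Real.log x / x) atTop (𝓝 0) := by
      have := Real.isLittleO_log_id_atTop.tendsto_div_nhds_zero
      simpa using this
    have h5 : ∀ᶠ x : ℝ in atTop, Real.log x / x < 1 / A := h4.eventually_lt_const (by positivity)
    filter_upwards [h5, eventually_gt_atTop 0] with x hx hx0
    rw [div_lt_div_iff₀ hx0 hA] at hx
    linarith
  filter_upwards [eventually_ge_atTop A, h1.eventually_ge_atTop A, h2.eventually_ge_atTop A,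
    h1.eventually h3] with γ a b c d
  exact ⟨a, b, c, d⟩


lemma order_pos {ρ : ℂ} (h : riemannZeta ρ = 0) : 1 ≤ analyticOrderNatAt riemannZeta ρ := by
  obtain ⟨h1, h2, h3⟩ := zero_facts h
  rw [← orderNat_EZ h1]
  have hEA : AnalyticOnNhd ℂ EZ Set.univ :=
    EZ_differentiable.differentiableOn.analyticOnNhd isOpen_univ
  have hnot : ¬ ∀ᶠ z in 𝓝 ρ, EZ z = 0 := by
    intro h4
    have h5 := hEA.eqOn_zero_of_preconnected_of_eventuallyEq_zero isPreconnected_univ
      (Set.mem_univ ρ) h4 (Set.mem_univ (1 : ℂ))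
    rw [EZ_one] at h5
    exact one_ne_zero h5
  have htop : analyticOrderAt EZ ρ ≠ ⊤ := by
    rw [Ne, analyticOrderAt_eq_top]
    exact hnot
  have h0 : analyticOrderAt EZ ρ ≠ 0 := by
    rw [Ne, (hEA ρ (Set.mem_univ ρ)).analyticOrderAt_eq_zero]
    exact fun h4 => h4 h3
  rw [Nat.one_le_iff_ne_zero]
  intro h4
  apply h0
  rw [← Nat.cast_analyticOrderNatAt htop, h4]
  rfl

/-- the logarithmic derivative at `1 + δ + i u` -/
lemma near_one {K L l R δ c₂ u : ℝ} (hK : 0 < K) (hL : 0 < L) (hl : 0 < l)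
    (hR : R = K * l / (4 * L)) (hR0 : 0 < R) (hδ0 : 0 < δ) (hδ1 : δ ≤ 1) (hu : R < u)
    (hexp : Real.exp l = L) (hc₂ : 0 < c₂)
    (hc : ∀ s : ℂ, 1 < s.re → s.re ≤ 2 → c₂ * (s.re - 1) ≤ ‖riemannZeta s‖)
    (hbig : 8 ≤ L ^ 2 * (c₂ * δ))
    (hb : ∀ z ∈ ball (((1 + δ : ℝ) : ℂ) + u * I) R, ‖riemannZeta z‖ ≤ (2 * L) ^ 3) :
    ∃ S : Finset ℂ, (∀ z, z ∈ S ↔ z ∈ closedBall (((1 + δ : ℝ) : ℂ) + u * I) (R / 2) ∧
        riemannZeta z = 0) ∧
      (LSeries Lam (((1 + δ : ℝ) : ℂ) + u * I)).re ≤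
        -(∑ c ∈ S, (analyticOrderNatAt riemannZeta c : ℂ) /
          ((((1 + δ : ℝ) : ℂ) + u * I) - c)).re + 1080 * L / K := by
  set s₀ : ℂ := ((1 + δ : ℝ) : ℂ) + u * I with hs₀
  have hre : s₀.re = 1 + δ := by simp [hs₀]
  have him : s₀.im = u := by simp [hs₀]
  have hne : riemannZeta s₀ ≠ 0 := riemannZeta_ne_zero_of_one_lt_re (by rw [hre]; linarith)
  have hd : DifferentiableOn ℂ riemannZeta (ball s₀ R) := by
    intro z hz
    refine (differentiableAt_riemannZeta ?_).differentiableWithinAt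
    rintro rfl
    rw [mem_ball, dist_eq_norm] at hz
    have h1 := Complex.abs_im_le_norm (1 - s₀)
    rw [Complex.sub_im, him, Complex.one_im, zero_sub, abs_neg] at h1
    have h2 := le_abs_self u
    linarith
  have hlow := hc s₀ (by rw [hre]; linarith) (by rw [hre]; linarith)
  rw [hre, add_sub_cancel_left] at hlow
  have hM : 0 < 5 * l := by positivity
  have hb' : ∀ z ∈ ball s₀ R, ‖riemannZeta z‖ ≤ Real.exp (5 * l) * ‖riemannZeta s₀‖ := by
    intro z hz
    refine (hb z hz).trans ?_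
    have h1 : Real.exp (5 * l) = L ^ 5 := by
      rw [← hexp, ← Real.exp_nat_mul]
      norm_num
    rw [h1]
    calc (2 * L) ^ 3 = L ^ 3 * 8 := by ring
      _ ≤ L ^ 3 * (L ^ 2 * (c₂ * δ)) := by gcongr
      _ = L ^ 5 * (c₂ * δ) := by ring
      _ ≤ L ^ 5 * ‖riemannZeta s₀‖ := by gcongr
  obtain ⟨S, hS, -, hld⟩ := landau hR0 hM hd hne hb'
  refine ⟨S, hS, ?_⟩
  have h1 := hld s₀ (mem_closedBall_self (by positivity)) hne
  rw [deriv_zeta_div (by rw [hre]; linarith)] at h1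
  have h2 : 54 * (5 * l) / R = 1080 * L / K := by
    rw [hR]
    field_simp
    ring
  rw [h2] at h1
  have h3 := (abs_le.1 ((Complex.abs_re_le_norm _).trans h1)).1
  rw [Complex.sub_re, Complex.neg_re] at h3
  linarith

lemma re_nonneg_aux {s c : ℂ} (h : c.re < s.re) (m : ℕ) : 0 ≤ ((m : ℂ) / (s - c)).re := by
  have h4 : ((m : ℂ) / (s - c)) = ((m : ℝ) : ℂ) * (1 / (s - c)) := by push_cast; ring
  rw [h4, Complex.re_ofReal_mul, one_div, Complex.inv_re]
  refine mul_nonneg (Nat.cast_nonneg _) (div_nonneg ?_ (Complex.normSq_nonneg _))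
  rw [Complex.sub_re]
  linarith

theorem zfr_pos (C₀ : ℝ) (hC₀ : 0 < C₀) : ∃ T₀ : ℝ, 3 ≤ T₀ ∧ ∀ ρ : ℂ, riemannZeta ρ = 0 →
    T₀ ≤ ρ.im → ρ.re ≤ 1 - C₀ / Real.log ρ.im := by
  obtain ⟨C₁, hC₁, hV⟩ := VV_bound
  obtain ⟨c₂, hc₂, hlow⟩ := zeta_lower
  set κ : ℝ := 1 / 54000 with hκ
  have hκ0 : 0 < κ := by rw [hκ]; norm_num
  set K : ℝ := 1 + 4 * C₀ / κ with hKdef
  have hK1 : 1 ≤ K := by rw [hKdef]; have : 0 < 4 * C₀ / κ := by positivity
                         linarith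
  have hK0 : 0 < K := by linarith
  have hKC : 4 * C₀ ≤ κ * K := by
    rw [hKdef, mul_add, mul_div_cancel₀ _ hκ0.ne']
    linarith
  obtain ⟨t₀, ht₀, hA6⟩ := Pool.Agent.Helper67.KSZ.A6 K hK1
  set A : ℝ := 100 + t₀ + 30 * C₁ * (κ * K) + 8 / (c₂ * (κ * K)) + K + 2 * (κ * K) with hA
  have hp1 : 0 < 30 * C₁ * (κ * K) := by positivity
  have hp2 : 0 < 8 / (c₂ * (κ * K)) := by positivity
  have hp3 : 0 < 2 * (κ * K) := by positivity
  have hA0 : 0 < A := by rw [hA]; linarith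
  obtain ⟨T₁, hT₁⟩ := eventually_atTop.1 (large_conditions A hA0)
  refine ⟨max 3 T₁, le_max_left _ _, fun ρ hρ hγ => ?_⟩
  obtain ⟨hc1, hc2, hc3, hc4⟩ := hT₁ ρ.im ((le_max_right _ _).trans hγ)
  set γ : ℝ := ρ.im with hγdef
  set L : ℝ := Real.log γ with hL
  set l : ℝ := Real.log L with hl
  have hγ3 : 3 ≤ γ := (le_max_left _ _).trans hγ
  have hLA : 100 ≤ L := by rw [hA] at hc2; linarith
  have hlA : 100 ≤ l := by rw [hA] at hc3; linarith
  have hL0 : 0 < L := by linarith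
  have hl0 : 0 < l := by linarith
  have hexp : Real.exp l = L := Real.exp_log hL0
  set R : ℝ := K * l / (4 * L) with hR
  have hR0 : 0 < R := by positivity
  have hKl : K * l ≤ L := by
    refine le_trans ?_ hc4
    refine mul_le_mul_of_nonneg_right ?_ hl0.le
    rw [hA]
    linarith
  have hR1 : R ≤ 1 / 4 := by
    rw [hR, div_le_iff₀ (by positivity)]
    linarith
  set δ : ℝ := κ * K / L with hδ
  have hδ0 : 0 < δ := by positivity
  have hδ1 : δ ≤ 1 / 2 := by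
    rw [hδ, div_le_iff₀ hL0]
    rw [hA] at hc2
    linarith
  have hδC : 3 * C₁ ≤ 1 / (10 * δ) := by
    rw [le_div_iff₀ (by positivity)]
    have h1 : 30 * C₁ * (κ * K) ≤ L := by rw [hA] at hc2; linarith
    have h2 : 3 * C₁ * (10 * δ) = 30 * C₁ * (κ * K) / L := by rw [hδ]; ring
    rw [h2, div_le_one hL0]
    exact h1
  have hbig : 8 ≤ L ^ 2 * (c₂ * δ) := by
    have h1 : 8 / (c₂ * (κ * K)) ≤ L := by rw [hA] at hc2; linarith
    rw [div_le_iff₀ (by positivity)] at h1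
    have h2 : L ^ 2 * (c₂ * δ) = L * (c₂ * (κ * K)) := by
      rw [hδ]
      field_simp
    rw [h2]
    exact h1
  -- growth
  have hLup : Real.log (2 * γ + 1) ≤ 2 * L := by
    have h1 : Real.log (2 * γ + 1) ≤ Real.log (γ ^ 2) := Real.log_le_log (by linarith) (by nlinarith)
    rw [Real.log_pow] at h1
    push_cast at h1
    exact h1
  have hLlow : L / 2 ≤ Real.log (γ - 1) := by
    have h1 : Real.log γ ≤ Real.log ((γ - 1) ^ 2) := Real.log_le_log (by linarith) (by nlinarith)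
    rw [Real.log_pow] at h1
    push_cast at h1
    linarith
  have hgrow : ∀ z : ℂ, γ - 1 ≤ z.im → z.im ≤ 2 * γ + 1 → 1 - R ≤ z.re →
      ‖riemannZeta z‖ ≤ (2 * L) ^ 3 := by
    intro z h1 h2 h3
    have h4 : L / 2 ≤ Real.log z.im := hLlow.trans (Real.log_le_log (by linarith) h1)
    have h5 : Real.log z.im ≤ 2 * L := (Real.log_le_log (by linarith) h2).trans hLup
    have h6 : l / 2 ≤ Real.log (Real.log z.im) := by
      have h7 : Real.log (L / 2) ≤ Real.log (Real.log z.im) := Real.log_le_log (by positivity) h4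
      rw [Real.log_div hL0.ne' (by norm_num)] at h7
      have h8 := Real.log_two_lt_d9
      linarith
    have h7 : R ≤ K * Real.log (Real.log z.im) / Real.log z.im := by
      rw [hR, div_le_div_iff₀ (by positivity) (by linarith)]
      have h8 : K * l * Real.log z.im ≤ K * l * (2 * L) := by gcongr
      have h9 : K * (l / 2) * (4 * L) ≤ K * Real.log (Real.log z.im) * (4 * L) := by gcongr
      have h10 : K * (l / 2) * (4 * L) = K * l * (2 * L) := by ring
      linarith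
    have h8 := hA6 z.im z.re (by rw [hA] at hc1; linarith) (by linarith)
    rw [Complex.re_add_im] at h8
    refine h8.trans ?_
    have h9 : 0 ≤ Real.log z.im := by linarith
    gcongr
  have hball1 : ∀ z ∈ ball (((1 + δ : ℝ) : ℂ) + γ * I) R, ‖riemannZeta z‖ ≤ (2 * L) ^ 3 := by
    intro z hz
    rw [mem_ball, dist_eq_norm] at hz
    have h1 := Complex.abs_im_le_norm (z - (((1 + δ : ℝ) : ℂ) + γ * I))
    have h2 := Complex.abs_re_le_norm (z - (((1 + δ : ℝ) : ℂ) + γ * I))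
    have h3 : (z - (((1 + δ : ℝ) : ℂ) + γ * I)).im = z.im - γ := by simp
    have h4 : (z - (((1 + δ : ℝ) : ℂ) + γ * I)).re = z.re - (1 + δ) := by simp
    rw [h3, abs_le] at h1
    rw [h4, abs_le] at h2
    exact hgrow z (by linarith [h1.1]) (by linarith [h1.2]) (by linarith [h2.1])
  have hball2 : ∀ z ∈ ball (((1 + δ : ℝ) : ℂ) + ((2 * γ : ℝ) : ℂ) * I) R,
      ‖riemannZeta z‖ ≤ (2 * L) ^ 3 := by
    intro z hz
    rw [mem_ball, dist_eq_norm] at hz
    have h1 := Complex.abs_im_le_norm (z - (((1 + δ : ℝ) : ℂ) + ((2 * γ : ℝ) : ℂ) * I))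
    have h2 := Complex.abs_re_le_norm (z - (((1 + δ : ℝ) : ℂ) + ((2 * γ : ℝ) : ℂ) * I))
    have h3 : (z - (((1 + δ : ℝ) : ℂ) + ((2 * γ : ℝ) : ℂ) * I)).im = z.im - 2 * γ := by simp
    have h4 : (z - (((1 + δ : ℝ) : ℂ) + ((2 * γ : ℝ) : ℂ) * I)).re = z.re - (1 + δ) := by simp
    rw [h3, abs_le] at h1
    rw [h4, abs_le] at h2
    exact hgrow z (by linarith [h1.1]) (by linarith [h1.2]) (by linarith [h2.1])
  obtain ⟨S₁, hS₁, hr₁⟩ := near_one hK0 hL0 hl0 hR hR0 hδ0 (by linarith) (u := γ) (by linarith)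
    hexp hc₂ hlow hbig hball1
  obtain ⟨S₂, hS₂, hr₂⟩ := near_one hK0 hL0 hl0 hR hR0 hδ0 (by linarith) (u := 2 * γ)
    (by linarith) hexp hc₂ hlow hbig hball2
  obtain ⟨hρ1, hρre, -⟩ := zero_facts hρ
  by_contra hcon
  rw [not_le] at hcon
  have hβ : 1 - ρ.re < C₀ / L := by linarith
  have hC₀L : C₀ / L ≤ δ / 4 := by
    rw [hδ, div_div, div_le_div_iff₀ hL0 (by positivity)]
    nlinarith
  -- ρ is in S₁
  have hs1ρ : (((1 + δ : ℝ) : ℂ) + γ * I) - ρ = ((1 + δ - ρ.re : ℝ) : ℂ) := by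
    apply Complex.ext
    · simp
    · simp [hγdef]
  have hδR : δ + δ / 4 ≤ R / 2 := by
    have h1 : δ * (5 / 4) = (κ * K * 5 / 4) / L := by rw [hδ]; ring
    have h2 : R / 2 = (K * l / 8) / L := by rw [hR]; field_simp; ring
    have h3 : δ + δ / 4 = δ * (5 / 4) := by ring
    rw [h3, h1, h2]
    apply div_le_div_of_nonneg_right _ hL0.le
    have h4 : κ ≤ 1 := by rw [hκ]; norm_num
    nlinarith
  have hρS : ρ ∈ S₁ := by
    rw [hS₁]
    refine ⟨?_, hρ⟩
    rw [mem_closedBall, dist_comm, dist_eq_norm, hs1ρ, Complex.norm_real, Real.norm_eq_abs,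
      abs_of_pos (by linarith)]
    linarith
  have hsum1 : 1 / (1 + δ - ρ.re) ≤ (∑ c ∈ S₁, (analyticOrderNatAt riemannZeta c : ℂ) /
      ((((1 + δ : ℝ) : ℂ) + γ * I) - c)).re := by
    rw [Complex.re_sum]
    have h1 : 1 / (1 + δ - ρ.re) ≤ ((analyticOrderNatAt riemannZeta ρ : ℂ) /
        ((((1 + δ : ℝ) : ℂ) + γ * I) - ρ)).re := by
      rw [hs1ρ]
      have h2 : ((analyticOrderNatAt riemannZeta ρ : ℂ) / ((1 + δ - ρ.re : ℝ) : ℂ)) =
        (((analyticOrderNatAt riemannZeta ρ : ℝ) / (1 + δ - ρ.re) : ℝ) : ℂ) := by push_cast; ring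
      rw [h2, Complex.ofReal_re]
      apply div_le_div_of_nonneg_right _ (by linarith)
      exact_mod_cast order_pos hρ
    refine h1.trans (Finset.single_le_sum (f := fun c => ((analyticOrderNatAt riemannZeta c : ℂ) /
        ((((1 + δ : ℝ) : ℂ) + γ * I) - c)).re) (fun c hc => ?_) hρS)
    refine re_nonneg_aux ?_ _
    have h3 := (zero_facts ((hS₁ c).1 hc).2).2.1
    have h4 : ((((1 + δ : ℝ) : ℂ) + γ * I)).re = 1 + δ := by simp
    rw [h4]
    linarith
  have hsum2 : 0 ≤ (∑ c ∈ S₂, (analyticOrderNatAt riemannZeta c : ℂ) /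
      ((((1 + δ : ℝ) : ℂ) + ((2 * γ : ℝ) : ℂ) * I) - c)).re := by
    rw [Complex.re_sum]
    refine Finset.sum_nonneg fun c hc => re_nonneg_aux ?_ _
    have h3 := (zero_facts ((hS₂ c).1 hc).2).2.1
    have h4 : ((((1 + δ : ℝ) : ℂ) + ((2 * γ : ℝ) : ℂ) * I)).re = 1 + δ := by simp
    rw [h4]
    linarith
  have h341 := three_four_one (σ := 1 + δ) (by linarith) γ
  have hV1 := hV (1 + δ) (by linarith) (by linarith)
  rw [add_sub_cancel_left] at hV1
  have hLK : 1080 * L / K = 1 / (50 * δ) := by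
    rw [hδ, hκ]
    field_simp
    norm_num
  rw [hLK] at hr₁ hr₂
  have hfin : 4 * (1 / (1 + δ - ρ.re)) ≤ 3 * (1 / δ) + 3 * C₁ + 5 * (1 / (50 * δ)) := by
    linarith
  have h5 : 5 * (1 / (50 * δ)) = 1 / (10 * δ) := by field_simp; norm_num
  have h6 : 3 * (1 / δ) + 1 / (10 * δ) + 1 / (10 * δ) = 16 / (5 * δ) := by field_simp; norm_num
  have h7 : 4 * (1 / (1 + δ - ρ.re)) ≤ 16 / (5 * δ) := by linarith
  have h8 : 0 < 1 + δ - ρ.re := by linarith
  rw [mul_one_div, div_le_div_iff₀ h8 (by positivity)] at h7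
  linarith

/-- **(A10)** -/
theorem inA10 : Pool.Agent.Helper18.KSZ.InA10 := by
  intro C0
  obtain ⟨T₀, hT₀, h⟩ := zfr_pos (max C0 1) (lt_max_of_lt_right one_pos)
  refine ⟨T₀, by linarith, fun ρ hρ hγ => ?_⟩
  have hlog : 0 < Real.log |ρ.im| := Real.log_pos (by linarith)
  have hmain : ρ.re ≤ 1 - max C0 1 / Real.log |ρ.im| := by
    rcases le_total 0 ρ.im with h1 | h1
    · rw [abs_of_nonneg h1] at hγ ⊢
      exact h ρ hρ hγ
    · rw [abs_of_nonpos h1] at hγ ⊢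
      have h2 : riemannZeta ((starRingEnd ℂ) ρ) = 0 := by
        rw [riemannZeta_conj, hρ, map_zero]
      have h3 := h ((starRingEnd ℂ) ρ) h2 (by rw [Complex.conj_im]; exact hγ)
      rwa [Complex.conj_im, Complex.conj_re] at h3
  refine hmain.trans ?_
  have h4 : C0 / Real.log |ρ.im| ≤ max C0 1 / Real.log |ρ.im| :=
    div_le_div_of_nonneg_right (le_max_left _ _) hlog.le
  linarith

end Pool.Agent.Helper33.KSZ
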