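import Pool.Agent.Helper33.KSZ.BoxEx

/-! KSZ A9: zeta locally. -/

set_option autoImplicit false
open Filter Topology Complex Metric

namespace Pool.Agent.Helper33.KSZ

open Pool.Agent.Helper10.QRH Pool.Agent.Helper69.QRH

/-- Landau's lemma for `EZ` at `2 + i t`. -/
theorem local_EZ : ∃ C : ℝ, 0 < C ∧ ∀ t : ℝ, ∃ S : Finset ℂ,
    (∀ z, z ∈ S ↔ z ∈ closedBall ((2 : ℂ) + t * I) 1.6 ∧ EZ z = 0) ∧
    (∑ c ∈ S, (analyticOrderNatAt EZ c : ℝ)) ≤ C * Real.log (|t| + 2) ∧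
    ∀ z ∈ closedBall ((2 : ℂ) + t * I) 1.5, EZ z ≠ 0 →
      ‖deriv EZ z / EZ z - ∑ c ∈ S, (analyticOrderNatAt EZ c : ℂ) / (z - c)‖ ≤
        C * Real.log (|t| + 2) := by
  obtain ⟨C₀, hC₀, hEZ⟩ := EZ_bound'
  obtain ⟨C, hC, hlog⟩ := log_bound (K := 3 * C₀) (by positivity)
  have hlog2 : 0 < Real.log 2 := Real.log_pos (by norm_num)
  have hL : 0 < Real.log (1.7 / 1.6 : ℝ) := Real.log_pos (by norm_num)
  set A : ℝ := 8 * 1.6 / (1.6 - 1.5) ^ 2 + 1 / Real.log (1.7 / 1.6) * (1.6 / (1.7 ^ 2 - 1.6 * 1.5))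
    with hA
  have hA0 : 0 < A := by
    rw [hA]
    have : (0 : ℝ) < 1.6 / (1.7 ^ 2 - 1.6 * 1.5) := by norm_num
    positivity
  refine ⟨C * A + C / Real.log (1.7 / 1.6), by positivity, fun t => ?_⟩
  set s₀ : ℂ := 2 + t * I with hs₀
  have hs₀re : s₀.re = 2 := by simp [hs₀]
  have ht := abs_nonneg t
  have hlt : 0 < Real.log (|t| + 2) := Real.log_pos (by linarith)
  set M : ℝ := C * Real.log (|t| + 2) with hM
  have hM0 : 0 < M := by positivity
  have hcen := EZ_center t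
  rw [← hs₀] at hcen
  have h0 : EZ s₀ ≠ 0 := by
    intro h
    rw [h, norm_zero] at hcen
    norm_num at hcen
  have hb : ∀ z ∈ ball s₀ 1.73, ‖EZ z‖ ≤ Real.exp M * ‖EZ s₀‖ := by
    intro w hw
    rw [mem_ball, dist_eq_norm] at hw
    have h2 : 0.26 ≤ w.re := by
      have h3 := (abs_le.1 (Complex.abs_re_le_norm (w - s₀))).1
      rw [Complex.sub_re, hs₀re] at h3
      norm_num at h3 hw ⊢
      linarith
    have h4 : ‖w‖ ≤ 1.73 + (2 + |t|) := by
      calc ‖w‖ = ‖(w - s₀) + s₀‖ := by rw [sub_add_cancel]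
        _ ≤ ‖w - s₀‖ + ‖s₀‖ := norm_add_le _ _
        _ ≤ 1.73 + (2 + |t|) := by
          gcongr
          exact center_norm t
    have h5 : 1 + ‖w‖ ≤ 5 + |t| := by
      norm_num at h4 ⊢
      linarith
    have h6 : 3 * C₀ * (5 + |t|) ^ 2 ≤ Real.exp M := by
      rw [← Real.log_le_iff_le_exp (by positivity)]
      exact hlog t
    calc ‖EZ w‖ ≤ C₀ * (1 + ‖w‖) ^ 2 := hEZ w h2
      _ ≤ C₀ * (5 + |t|) ^ 2 := by gcongr
      _ = 3 * C₀ * (5 + |t|) ^ 2 * (1 / 3) := by ring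
      _ ≤ Real.exp M * ‖EZ s₀‖ := by gcongr
  obtain ⟨S, hS, hcard, hld⟩ := landau_gen (s₀ := s₀) (r₁ := 1.5) (r₂ := 1.6) (r := 1.7)
    (R := 1.73) (M := M) (by norm_num) (by norm_num) (by norm_num) (by norm_num) hM0
    EZ_differentiable.differentiableOn h0 hb
  have hcard' : (∑ c ∈ S, (analyticOrderNatAt EZ c : ℝ)) ≤ M / Real.log (1.7 / 1.6) := by
    rw [le_div_iff₀ hL]
    exact hcard
  refine ⟨S, hS, ?_, ?_⟩
  · refine hcard'.trans ?_
    rw [hM, add_mul]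
    have : 0 ≤ C * A * Real.log (|t| + 2) := by positivity
    have h2 : C * Real.log (|t| + 2) / Real.log (1.7 / 1.6) =
      C / Real.log (1.7 / 1.6) * Real.log (|t| + 2) := by ring
    rw [h2]
    linarith
  · intro z hz hz0
    refine (hld z hz hz0).trans ?_
    have hq : (0 : ℝ) < 1.6 / (1.7 ^ 2 - 1.6 * 1.5) := by norm_num
    have h1 : (∑ c ∈ S, (analyticOrderNatAt EZ c : ℝ)) * (1.6 / (1.7 ^ 2 - 1.6 * 1.5)) ≤
        M / Real.log (1.7 / 1.6) * (1.6 / (1.7 ^ 2 - 1.6 * 1.5)) := by gcongr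
    have h2 : 8 * M * 1.6 / (1.6 - 1.5) ^ 2 + M / Real.log (1.7 / 1.6) *
        (1.6 / (1.7 ^ 2 - 1.6 * 1.5)) = M * A := by
      rw [hA]
      ring
    have h3 : M * A ≤ (C * A + C / Real.log (1.7 / 1.6)) * Real.log (|t| + 2) := by
      rw [hM, add_mul]
      have : 0 ≤ C / Real.log (1.7 / 1.6) * Real.log (|t| + 2) := by positivity
      nlinarith
    linarith

lemma zero_facts {ρ : ℂ} (h : riemannZeta ρ = 0) : ρ ≠ 1 ∧ ρ.re < 1 ∧ EZ ρ = 0 := by
  have h1 : ρ ≠ 1 := by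
    rintro rfl
    exact riemannZeta_one_ne_zero h
  refine ⟨h1, ?_, by rw [EZ_eq h1, h, mul_zero]⟩
  by_contra h3
  exact riemannZeta_ne_zero_of_one_le_re (not_lt.1 h3) h

lemma zero_of_EZ {z : ℂ} (hz : EZ z = 0) : riemannZeta z = 0 ∧ z ≠ 1 := by
  have h1 : z ≠ 1 := by
    rintro rfl
    rw [EZ_one] at hz
    exact one_ne_zero hz
  rw [EZ_eq h1] at hz
  exact ⟨(mul_eq_zero.1 hz).resolve_left (sub_ne_zero.2 h1), h1⟩

lemma log_shift (t a : ℝ) (ha : |a| ≤ 1 / 2) :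
    Real.log (|t + a| + 2) ≤ 2 * Real.log (|t| + 2) := by
  have ht := abs_nonneg t
  have h1 : |t + a| ≤ |t| + |a| := abs_add_le t a
  have h2 : Real.log (|t + a| + 2) ≤ Real.log ((|t| + 2) ^ 2) := by
    apply Real.log_le_log
    · have := abs_nonneg (t + a)
      linarith
    · nlinarith
  rw [Real.log_pow] at h2
  push_cast at h2
  exact h2

lemma mem_disc {t : ℝ} {ρ : ℂ} (h1 : 1 / 2 ≤ ρ.re) (h2 : ρ.re < 1) (h3 : |ρ.im - t| ≤ 1 / 2) :
    ρ ∈ closedBall ((2 : ℂ) + t * I) 1.6 := by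
  rw [mem_closedBall, dist_eq_norm]
  have hre : (ρ - ((2 : ℂ) + t * I)).re = ρ.re - 2 := by simp
  have him : (ρ - ((2 : ℂ) + t * I)).im = ρ.im - t := by simp
  have h4 : ‖ρ - ((2 : ℂ) + t * I)‖ ^ 2 = (ρ.re - 2) ^ 2 + (ρ.im - t) ^ 2 := by
    rw [← Complex.normSq_eq_norm_sq, Complex.normSq_apply, hre, him]
    ring
  have h5 : (ρ.im - t) ^ 2 ≤ (1 / 2) ^ 2 := sq_le_sq' (by linarith [(abs_le.1 h3).1])
    (abs_le.1 h3).2
  have h6 : ‖ρ - ((2 : ℂ) + t * I)‖ ^ 2 ≤ 1.6 ^ 2 := by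
    rw [h4]
    norm_num at h5 ⊢
    nlinarith
  exact (pow_le_pow_iff_left₀ (norm_nonneg _) (by norm_num) (by norm_num)).1 h6

/-- **(A9 i)** -/
theorem zeta_count : ∃ C : ℝ, 0 < C ∧ ∀ (t : ℝ) (F : Finset ℂ),
    (∀ ρ ∈ F, riemannZeta ρ = 0 ∧ 1 / 2 ≤ ρ.re ∧ |ρ.im - t| ≤ 1) →
    ∑ ρ ∈ F, (analyticOrderNatAt riemannZeta ρ : ℝ) ≤ C * Real.log (|t| + 2) := by
  classical
  obtain ⟨C, hC, hloc⟩ := local_EZ
  refine ⟨4 * C, by positivity, fun t F hF => ?_⟩
  obtain ⟨S1, hS1, hc1, -⟩ := hloc (t + 1 / 2)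
  obtain ⟨S2, hS2, hc2, -⟩ := hloc (t + -(1 / 2))
  have hsub : F ⊆ S1 ∪ S2 := by
    intro ρ hρ
    obtain ⟨h1, h2, h3⟩ := hF ρ hρ
    obtain ⟨h4, h5, h6⟩ := zero_facts h1
    rw [abs_le] at h3
    rw [Finset.mem_union]
    rcases le_total t ρ.im with h7 | h7
    · left
      rw [hS1]
      refine ⟨mem_disc h2 h5 ?_, h6⟩
      rw [abs_le]
      constructor <;> linarith
    · right
      rw [hS2]
      refine ⟨mem_disc h2 h5 ?_, h6⟩
      rw [abs_le]
      constructor <;> linarith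
  have hl1 := log_shift t (1 / 2) (by rw [abs_of_pos (by norm_num)])
  have hl2 := log_shift t (-(1 / 2)) (by rw [abs_neg, abs_of_pos (by norm_num)])
  calc ∑ ρ ∈ F, (analyticOrderNatAt riemannZeta ρ : ℝ)
      = ∑ ρ ∈ F, (analyticOrderNatAt EZ ρ : ℝ) := by
        refine Finset.sum_congr rfl fun ρ hρ => ?_
        rw [orderNat_EZ (zero_facts (hF ρ hρ).1).1]
    _ ≤ ∑ ρ ∈ S1 ∪ S2, (analyticOrderNatAt EZ ρ : ℝ) :=
        Finset.sum_le_sum_of_subset_of_nonneg hsub fun _ _ _ => Nat.cast_nonneg _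
    _ ≤ ∑ ρ ∈ S1, (analyticOrderNatAt EZ ρ : ℝ) + ∑ ρ ∈ S2, (analyticOrderNatAt EZ ρ : ℝ) := by
        rw [← Finset.sum_union_inter]
        exact le_add_of_nonneg_right (Finset.sum_nonneg fun _ _ => Nat.cast_nonneg _)
    _ ≤ C * (2 * Real.log (|t| + 2)) + C * (2 * Real.log (|t| + 2)) := by
        refine add_le_add (hc1.trans ?_) (hc2.trans ?_)
        · exact mul_le_mul_of_nonneg_left hl1 hC.le
        · exact mul_le_mul_of_nonneg_left hl2 hC.le
    _ = 4 * C * Real.log (|t| + 2) := by ring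

lemma logDeriv_EZ_eq {s : ℂ} (hs : s ≠ 1) (hz : riemannZeta s ≠ 0) :
    deriv EZ s / EZ s = deriv riemannZeta s / riemannZeta s + 1 / (s - 1) := by
  have hev : EZ =ᶠ[𝓝 s] fun z : ℂ => (z - 1) * riemannZeta z := by
    filter_upwards [isOpen_compl_singleton.mem_nhds (show s ∈ ({1} : Set ℂ)ᶜ from hs)] with z hz
    exact EZ_eq hz
  have h1 : HasDerivAt (fun z : ℂ => z - 1) 1 s := (hasDerivAt_id s).sub_const 1
  have h2 := h1.mul (differentiableAt_riemannZeta hs).hasDerivAt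
  have h3 : deriv EZ s = 1 * riemannZeta s + (s - 1) * deriv riemannZeta s := by
    rw [hev.deriv_eq]
    exact h2.deriv
  have hs' : s - 1 ≠ 0 := sub_ne_zero.2 hs
  rw [h3, EZ_eq hs]
  field_simp
  ring

/-- **(A9 ii)**, uniform version -/
theorem zeta_local : ∃ C : ℝ, 0 < C ∧ ∀ (s : ℂ) (F : Finset ℂ), 0.55 ≤ s.re → s.re ≤ 2 →
    s ≠ 1 → riemannZeta s ≠ 0 →
    (∀ ρ, ρ ∈ F ↔ riemannZeta ρ = 0 ∧ 1 / 2 ≤ ρ.re ∧ |ρ.im - s.im| ≤ 1) →
    ‖deriv riemannZeta s / riemannZeta s + 1 / (s - 1) -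
      ∑ ρ ∈ F, (analyticOrderNatAt riemannZeta ρ : ℂ) / (s - ρ)‖ ≤
      C * Real.log (|s.im| + 2) := by
  classical
  obtain ⟨C, hC, hloc⟩ := local_EZ
  obtain ⟨C', hC', hcount⟩ := zeta_count
  refine ⟨C + 20 * C + 20 * C', by positivity, fun s F h1 h2 h3 h4 hF => ?_⟩
  obtain ⟨S, hS, hc, hld⟩ := hloc s.im
  have hsB : s ∈ closedBall ((2 : ℂ) + s.im * I) 1.5 := by
    rw [mem_closedBall, dist_eq_norm]
    have h5 : s - ((2 : ℂ) + s.im * I) = ((s.re - 2 : ℝ) : ℂ) := by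
      apply Complex.ext <;> simp
    rw [h5, Complex.norm_real, Real.norm_eq_abs, abs_le]
    norm_num at h1 ⊢
    constructor <;> linarith
  have hE0 : EZ s ≠ 0 := by
    rw [EZ_eq h3]
    exact mul_ne_zero (sub_ne_zero.2 h3) h4
  have hmain := hld s hsB hE0
  rw [logDeriv_EZ_eq h3 h4] at hmain
  set m : ℂ → ℝ := fun ρ => (analyticOrderNatAt EZ ρ : ℝ) with hm
  have hFsum : ∑ ρ ∈ F, (analyticOrderNatAt riemannZeta ρ : ℂ) / (s - ρ) =
      ∑ ρ ∈ F, (analyticOrderNatAt EZ ρ : ℂ) / (s - ρ) := by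
    refine Finset.sum_congr rfl fun ρ hρ => ?_
    rw [orderNat_EZ (zero_facts ((hF ρ).1 hρ).1).1]
  have hFm : ∑ ρ ∈ F, m ρ ≤ C' * Real.log (|s.im| + 2) := by
    have h6 := hcount s.im F fun ρ hρ => (hF ρ).1 hρ
    refine le_of_eq_of_le (Finset.sum_congr rfl fun ρ hρ => ?_) h6
    simp only [hm]
    rw [orderNat_EZ (zero_facts ((hF ρ).1 hρ).1).1]
  -- the difference of the two sums
  have hdiff : ‖∑ c ∈ S, (analyticOrderNatAt EZ c : ℂ) / (s - c) -
      ∑ c ∈ F, (analyticOrderNatAt EZ c : ℂ) / (s - c)‖ ≤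
      20 * (C * Real.log (|s.im| + 2)) + 20 * (C' * Real.log (|s.im| + 2)) := by
    have h7 : ∑ c ∈ S, (analyticOrderNatAt EZ c : ℂ) / (s - c) -
        ∑ c ∈ F, (analyticOrderNatAt EZ c : ℂ) / (s - c) =
        ∑ c ∈ S \ F, (analyticOrderNatAt EZ c : ℂ) / (s - c) -
        ∑ c ∈ F \ S, (analyticOrderNatAt EZ c : ℂ) / (s - c) := by
      rw [← Finset.sum_sdiff_sub_sum_sdiff]
    rw [h7]
    refine (norm_sub_le _ _).trans (add_le_add ?_ ?_)
    · refine (norm_sum_le _ _).trans ?_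
      calc ∑ c ∈ S \ F, ‖(analyticOrderNatAt EZ c : ℂ) / (s - c)‖
          ≤ ∑ c ∈ S \ F, 20 * m c := by
            refine Finset.sum_le_sum fun c hc => ?_
            rw [Finset.mem_sdiff, hS, hF] at hc
            obtain ⟨⟨hc1, hc2⟩, hc3⟩ := hc
            obtain ⟨hz1, hz2⟩ := zero_of_EZ hc2
            have hdist : 1 / 20 ≤ ‖s - c‖ := by
              by_cases hcre : 1 / 2 ≤ c.re
              · have h8 : 1 < |c.im - s.im| := by
                  by_contra h9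
                  exact hc3 ⟨hz1, hcre, not_lt.1 h9⟩
                have h10 := Complex.abs_im_le_norm (s - c)
                rw [Complex.sub_im, abs_sub_comm] at h10
                linarith
              · have h10 := Complex.re_le_norm (s - c)
                rw [Complex.sub_re] at h10
                norm_num at h1
                linarith [not_le.1 hcre]
            rw [norm_div, Complex.norm_natCast, div_le_iff₀ (by linarith)]
            have : 0 ≤ m c := Nat.cast_nonneg _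
            simp only [hm] at this ⊢
            nlinarith
        _ ≤ ∑ c ∈ S, 20 * m c := Finset.sum_le_sum_of_subset_of_nonneg Finset.sdiff_subset
            fun _ _ _ => by simp only [hm]; positivity
        _ = 20 * ∑ c ∈ S, m c := by rw [Finset.mul_sum]
        _ ≤ 20 * (C * Real.log (|s.im| + 2)) := by gcongr
    · refine (norm_sum_le _ _).trans ?_
      calc ∑ c ∈ F \ S, ‖(analyticOrderNatAt EZ c : ℂ) / (s - c)‖
          ≤ ∑ c ∈ F \ S, 20 * m c := by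
            refine Finset.sum_le_sum fun c hc => ?_
            rw [Finset.mem_sdiff, hS, hF] at hc
            obtain ⟨⟨hc1, hc2, hc3⟩, hc4⟩ := hc
            obtain ⟨hz1, hz2, hz3⟩ := zero_facts hc1
            have hdist : 1 / 20 ≤ ‖s - c‖ := by
              have h8 : 1 / 2 < |c.im - s.im| := by
                by_contra h9
                exact hc4 ⟨mem_disc hc2 hz2 (not_lt.1 h9), hz3⟩
              have h10 := Complex.abs_im_le_norm (s - c)
              rw [Complex.sub_im, abs_sub_comm] at h10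
              linarith
            rw [norm_div, Complex.norm_natCast, div_le_iff₀ (by linarith)]
            have : 0 ≤ m c := Nat.cast_nonneg _
            simp only [hm] at this ⊢
            nlinarith
        _ ≤ ∑ c ∈ F, 20 * m c := Finset.sum_le_sum_of_subset_of_nonneg Finset.sdiff_subset
            fun _ _ _ => by simp only [hm]; positivity
        _ = 20 * ∑ c ∈ F, m c := by rw [Finset.mul_sum]
        _ ≤ 20 * (C' * Real.log (|s.im| + 2)) := by gcongr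
  rw [hFsum]
  calc ‖deriv riemannZeta s / riemannZeta s + 1 / (s - 1) -
        ∑ ρ ∈ F, (analyticOrderNatAt EZ ρ : ℂ) / (s - ρ)‖
      ≤ ‖deriv riemannZeta s / riemannZeta s + 1 / (s - 1) -
          ∑ c ∈ S, (analyticOrderNatAt EZ c : ℂ) / (s - c)‖ +
        ‖∑ c ∈ S, (analyticOrderNatAt EZ c : ℂ) / (s - c) -
          ∑ c ∈ F, (analyticOrderNatAt EZ c : ℂ) / (s - c)‖ := norm_sub_le_norm_sub_add_norm_sub _ _ _
    _ ≤ C * Real.log (|s.im| + 2) + (20 * (C * Real.log (|s.im| + 2)) +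
        20 * (C' * Real.log (|s.im| + 2))) := add_le_add hmain hdiff
    _ = _ := by ring

end Pool.Agent.Helper33.KSZ
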