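import Pool.Agent.Helper33.KSZ.Jensen

/-! KSZ-E1: all zeros of zeta in a box divided out of `EZ`. -/

set_option autoImplicit false
open Filter Topology Complex Metric

namespace Pool.Agent.Helper33.KSZ

open Pool.Agent.Helper10.QRH Pool.Agent.Helper69.QRH

/-- the order of `EZ` and of zeta agree away from `1` -/
lemma order_EZ {ρ : ℂ} (h1 : ρ ≠ 1) :
    analyticOrderAt EZ ρ = analyticOrderAt riemannZeta ρ := by
  have hev : EZ =ᶠ[𝓝 ρ] (fun z : ℂ => z - 1) * riemannZeta := by
    filter_upwards [isOpen_compl_singleton.mem_nhds (show ρ ∈ ({1} : Set ℂ)ᶜ from h1)] with z hz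
    exact EZ_eq hz
  have hz : AnalyticAt ℂ riemannZeta ρ := by
    have h2 : DifferentiableOn ℂ riemannZeta ({1}ᶜ : Set ℂ) := fun z hz =>
      (differentiableAt_riemannZeta hz).differentiableWithinAt
    exact h2.analyticAt (isOpen_compl_singleton.mem_nhds h1)
  have hl : AnalyticAt ℂ (fun z : ℂ => z - 1) ρ := by fun_prop
  have hl0 : analyticOrderAt (fun z : ℂ => z - 1) ρ = 0 := by
    rw [hl.analyticOrderAt_eq_zero]
    exact sub_ne_zero.2 h1
  rw [analyticOrderAt_congr hev, analyticOrderAt_mul hl hz, hl0, zero_add]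

lemma orderNat_EZ {ρ : ℂ} (h1 : ρ ≠ 1) :
    analyticOrderNatAt EZ ρ = analyticOrderNatAt riemannZeta ρ := by
  unfold analyticOrderNatAt
  rw [order_EZ h1]

lemma Qp_replicate_add (n : ℕ) (a : ℂ) (M : Multiset ℂ) (z : ℂ) :
    Qp (Multiset.replicate n a + M) z = (z - a) ^ n * Qp M z := by
  unfold Qp
  rw [Multiset.map_add, Multiset.prod_add, Multiset.map_replicate, Multiset.prod_replicate]

/-- the multiplicity in a factorisation is the order -/
lemma count_eq_order {M : Multiset ℂ} {Z : ℂ → ℂ} (hZ : Differentiable ℂ Z)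
    (hfac : ∀ z, EZ z = Qp M z * Z z) {ρ : ℂ} (hρ : Z ρ ≠ 0) :
    M.count ρ = analyticOrderNatAt EZ ρ := by
  classical
  have hM : M = Multiset.replicate (M.count ρ) ρ + M.filter (fun c => ¬ ρ = c) := by
    rw [← Multiset.filter_eq, Multiset.filter_add_not]
  set M' := M.filter (fun c => ¬ ρ = c) with hM'
  have hQ : Qp M' ρ ≠ 0 := by
    refine Qp_ne_zero _ _ fun c hc => ?_
    exact (Multiset.mem_filter.1 hc).2
  have hEa : AnalyticAt ℂ EZ ρ :=
    EZ_differentiable.differentiableOn.analyticAt (isOpen_univ.mem_nhds (Set.mem_univ ρ))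
  have hga : AnalyticAt ℂ (fun z => Qp M' z * Z z) ρ :=
    ((Qp_differentiable M').mul hZ).differentiableOn.analyticAt
      (isOpen_univ.mem_nhds (Set.mem_univ ρ))
  have heq : ∀ z, EZ z = (z - ρ) ^ (M.count ρ) • (Qp M' z * Z z) := by
    intro z
    rw [hfac z]
    conv_lhs => rw [hM, Qp_replicate_add]
    rw [smul_eq_mul, mul_assoc]
  symm
  have htop : analyticOrderAt EZ ρ = (M.count ρ : ℕ) := by
    rw [hEa.analyticOrderAt_eq_natCast]
    exact ⟨_, hga, mul_ne_zero hQ hρ, Eventually.of_forall heq⟩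
  unfold analyticOrderNatAt
  rw [htop]
  rfl

theorem boxExists : Pool.Agent.Helper46.KSZ.BoxExists := by
  intro T hT
  set U : Set ℂ := {z : ℂ | 3/5 < z.re ∧ |z.im| < T + 2} with hU
  have hUo : IsOpen U := by
    refine IsOpen.inter (isOpen_lt continuous_const Complex.continuous_re) ?_
    exact isOpen_lt (continuous_abs.comp Complex.continuous_im) continuous_const
  have hUc : IsPreconnected U := by
    have h1 : U = {z : ℂ | 3/5 < z.re} ∩ ({z : ℂ | z.im < T + 2} ∩ {z : ℂ | -(T + 2) < z.im}) := by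
      ext z
      simp only [hU, Set.mem_ofPred_eq, Set.mem_inter_iff, abs_lt]
      tauto
    rw [h1]
    exact ((convex_halfSpace_re_gt _).inter
      ((convex_halfSpace_im_lt _).inter (convex_halfSpace_im_gt _))).isPreconnected
  have hzero : ∀ z : ℂ, EZ z = 0 → riemannZeta z = 0 ∧ z.re < 1 := by
    intro z hz
    have h1 : z ≠ 1 := by
      rintro rfl
      rw [EZ_one] at hz
      exact one_ne_zero hz
    rw [EZ_eq h1] at hz
    have h2 := (mul_eq_zero.1 hz).resolve_left (sub_ne_zero.2 h1)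
    refine ⟨h2, ?_⟩
    by_contra h3
    exact riemannZeta_ne_zero_of_one_le_re (not_lt.1 h3) h2
  have hfin : {z : ℂ | z ∈ U ∧ EZ z = 0}.Finite := by
    have h1 := zeros_finite (s₀ := 0) (R := T + 10) (r := T + 4) (by linarith) (F := EZ)
      EZ_differentiable.differentiableOn
      ⟨1, by rw [mem_ball_zero_iff, norm_one]; linarith, by rw [EZ_one]; exact one_ne_zero⟩
    refine h1.subset fun z hz => ⟨?_, hz.2⟩
    rw [mem_closedBall_zero_iff]
    have h2 := (hzero z hz.2).2
    have h3 : 3 / 5 < z.re := hz.1.1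
    have h4 : |z.im| < T + 2 := hz.1.2
    refine (Complex.norm_le_abs_re_add_abs_im z).trans ?_
    rw [abs_of_pos (by linarith : 0 < z.re)]
    linarith
  obtain ⟨M, Z, hZ, hZ0, hM, hfac⟩ := factorFinite EZ EZ_differentiable U hUo hUc
    ⟨1, ⟨by norm_num, by simp only [Complex.one_im, abs_zero]; linarith⟩,
      by rw [EZ_one]; exact one_ne_zero⟩ hfin
  refine ⟨M, Z, hZ, hfac, ?_, fun z h1 h2 => hZ0 z ⟨h1, h2⟩, ?_⟩
  · intro ρ hρ
    obtain ⟨h1, h2⟩ := hM ρ hρ
    obtain ⟨h3, h4⟩ := hzero ρ h2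
    exact ⟨h3, h1.1, h4, h1.2⟩
  · intro ρ hρ h1 h2
    have h3 : ρ ≠ 1 := by
      rintro rfl
      exact riemannZeta_one_ne_zero hρ
    rw [← orderNat_EZ h3]
    have h4 := count_eq_order hZ hfac (hZ0 ρ ⟨h1, h2⟩)
    convert h4

end Pool.Agent.Helper33.KSZ
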