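import Pool.Agent.Helper33.KSZ.Landau

/-! KSZ A8, general radii `r₁ < r₂ < r < R`. -/

set_option autoImplicit false
open Filter Topology Complex Metric

namespace Pool.Agent.Helper33.KSZ

lemma Bl_low {s₀ : ℂ} {r ρ₁ ρ₂ : ℝ} {c z : ℂ} (hr : 0 ≤ r) (hρ₂ : 0 ≤ ρ₂) (hc : ‖c - s₀‖ ≤ ρ₂)
    (hz : ‖z - s₀‖ ≤ ρ₁) :
    r ^ 2 - ρ₂ * ρ₁ ≤ ‖(r : ℂ) ^ 2 - (starRingEnd ℂ) (c - s₀) * (z - s₀)‖ := by
  have h1 := norm_sub_norm_le ((r : ℂ) ^ 2) ((starRingEnd ℂ) (c - s₀) * (z - s₀))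
  rw [norm_pow, Complex.norm_real, Real.norm_eq_abs, abs_of_nonneg hr, norm_mul,
    RCLike.norm_conj] at h1
  have h2 : ‖c - s₀‖ * ‖z - s₀‖ ≤ ρ₂ * ρ₁ :=
    mul_le_mul hc hz (norm_nonneg _) hρ₂
  linarith

lemma Bl_logDeriv_gen {s₀ : ℂ} {r ρ₁ ρ₂ : ℝ} {c z : ℂ} (hr : 0 < r) (hρ₂ : 0 ≤ ρ₂)
    (hc : ‖c - s₀‖ ≤ ρ₂) (hz : ‖z - s₀‖ ≤ ρ₁) (hpos : 0 < r ^ 2 - ρ₂ * ρ₁) :
    ‖logDeriv (Bl s₀ r c) z‖ ≤ ρ₂ / (r ^ 2 - ρ₂ * ρ₁) := by
  have h1 := Bl_low hr.le hρ₂ hc hz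
  have hr' : (r : ℂ) ≠ 0 := by exact_mod_cast hr.ne'
  have h2 : HasDerivAt (Bl s₀ r c) (-(starRingEnd ℂ) (c - s₀) / (r : ℂ)) z := by
    have h3 : HasDerivAt (fun z : ℂ => z - s₀) 1 z := (hasDerivAt_id z).sub_const s₀
    have h4 := ((h3.const_mul ((starRingEnd ℂ) (c - s₀))).const_sub ((r : ℂ) ^ 2)).div_const (r : ℂ)
    rw [mul_one] at h4
    exact h4
  rw [logDeriv_apply, h2.deriv, Bl]
  have hne : (r : ℂ) ^ 2 - (starRingEnd ℂ) (c - s₀) * (z - s₀) ≠ 0 := by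
    intro h0
    rw [h0, norm_zero] at h1
    linarith
  have h5 : -(starRingEnd ℂ) (c - s₀) / (r : ℂ) /
      (((r : ℂ) ^ 2 - (starRingEnd ℂ) (c - s₀) * (z - s₀)) / (r : ℂ)) =
      -(starRingEnd ℂ) (c - s₀) / ((r : ℂ) ^ 2 - (starRingEnd ℂ) (c - s₀) * (z - s₀)) := by
    field_simp
  rw [h5, norm_div, norm_neg, RCLike.norm_conj]
  exact div_le_div₀ hρ₂ hc hpos h1

/-- **Landau's lemma**, general radii. -/
theorem landau_gen {s₀ : ℂ} {r₁ r₂ r R M : ℝ} {F : ℂ → ℂ} (hr₁ : 0 < r₁) (h12 : r₁ < r₂)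
    (h2r : r₂ < r) (hrR : r < R) (hM : 0 < M)
    (hF : DifferentiableOn ℂ F (ball s₀ R)) (h0 : F s₀ ≠ 0)
    (hb : ∀ z ∈ ball s₀ R, ‖F z‖ ≤ Real.exp M * ‖F s₀‖) :
    ∃ S : Finset ℂ, (∀ z, z ∈ S ↔ z ∈ closedBall s₀ r₂ ∧ F z = 0) ∧
      (∑ c ∈ S, (analyticOrderNatAt F c : ℝ)) * Real.log (r / r₂) ≤ M ∧
      ∀ z ∈ closedBall s₀ r₁, F z ≠ 0 →
        ‖deriv F z / F z - ∑ c ∈ S, (analyticOrderNatAt F c : ℂ) / (z - c)‖ ≤
          8 * M * r₂ / (r₂ - r₁) ^ 2 +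
          (∑ c ∈ S, (analyticOrderNatAt F c : ℝ)) * (r₂ / (r ^ 2 - r₂ * r₁)) := by
  classical
  have hr₂ : 0 < r₂ := hr₁.trans h12
  have hr0 : 0 < r := hr₂.trans h2r
  have hR : 0 < R := hr0.trans hrR
  have hs0B : s₀ ∈ ball s₀ R := mem_ball_self hR
  have hfin := zeros_finite (r := r₂) (by linarith) hF ⟨s₀, hs0B, h0⟩
  set S : Finset ℂ := hfin.toFinset with hS
  have hSmem : ∀ z, z ∈ S ↔ z ∈ closedBall s₀ r₂ ∧ F z = 0 := by
    intro z
    rw [hS, Set.Finite.mem_toFinset]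
    rfl
  have hSn : ∀ c ∈ S, ‖c - s₀‖ ≤ r₂ := by
    intro c hc
    have := ((hSmem c).1 hc).1
    rwa [mem_closedBall, dist_eq_norm] at this
  obtain ⟨g, hg, hgS, hFg⟩ := factor_fin S hF ⟨s₀, hs0B, h0⟩ (fun c hc => by
    rw [mem_ball, dist_eq_norm]
    linarith [hSn c hc])
  set m : ℂ → ℕ := fun c => analyticOrderNatAt F c with hm
  set P : ℂ → ℂ := fun z => ∏ c ∈ S, Bl s₀ r c z ^ m c with hP
  set h : ℂ → ℂ := fun z => P z * g z with hh
  set N : ℕ := ∑ c ∈ S, m c with hN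
  have hPd : Differentiable ℂ P := by
    rw [hP]
    exact Differentiable.fun_finsetProd fun c _ => (Bl_differentiable s₀ r c).pow _
  have hhd : DifferentiableOn ℂ h (ball s₀ R) := hPd.differentiableOn.mul hg
  -- bound on the circle
  have hcirc : ∀ z : ℂ, ‖z - s₀‖ = r → ‖h z‖ ≤ Real.exp M * ‖F s₀‖ := by
    intro z hz
    have hzB : z ∈ ball s₀ R := by
      rw [mem_ball, dist_eq_norm, hz]
      linarith
    have h1 : ‖h z‖ = ‖F z‖ := by
      rw [hFg z]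
      simp only [hh, hP, norm_mul, norm_prod, norm_pow]
      congr 1
      exact Finset.prod_congr rfl fun c hc => by rw [Bl_norm_circle hr0 hz]
    rw [h1]
    exact hb z hzB
  have hmax : ∀ z : ℂ, ‖z - s₀‖ ≤ r → ‖h z‖ ≤ Real.exp M * ‖F s₀‖ := by
    intro z hz
    have hd : DiffContOnCl ℂ h (ball s₀ r) := by
      refine DifferentiableOn.diffContOnCl ?_
      rw [closure_ball s₀ hr0.ne']
      exact hhd.mono (closedBall_subset_ball (by linarith))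
    refine Complex.norm_le_of_forall_mem_frontier_norm_le isBounded_ball hd ?_ ?_
    · intro w hw
      rw [frontier_ball s₀ hr0.ne', mem_sphere, dist_eq_norm] at hw
      exact hcirc w hw
    · rw [closure_ball s₀ hr0.ne', mem_closedBall, dist_eq_norm]
      exact hz
  -- the centre
  have hgs : ‖h s₀‖ = r ^ N * ‖g s₀‖ := by
    have h1 : h s₀ = (∏ c ∈ S, (r : ℂ) ^ m c) * g s₀ := by
      simp only [hh, hP]
      congr 1
      exact Finset.prod_congr rfl fun c hc => by rw [Bl_center s₀ hr0]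
    rw [h1, Finset.prod_pow_eq_pow_sum, norm_mul, norm_pow, Complex.norm_real, Real.norm_eq_abs,
      abs_of_pos hr0]
  have hFs : ‖F s₀‖ ≤ r₂ ^ N * ‖g s₀‖ := by
    rw [hFg s₀, norm_mul, norm_prod]
    refine mul_le_mul_of_nonneg_right ?_ (norm_nonneg _)
    rw [hN, ← Finset.prod_pow_eq_pow_sum]
    refine Finset.prod_le_prod (fun _ _ => norm_nonneg _) fun c hc => ?_
    rw [norm_pow]
    refine pow_le_pow_left₀ (norm_nonneg _) ?_ _
    rw [norm_sub_rev]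
    exact hSn c hc
  have hF0 : 0 < ‖F s₀‖ := norm_pos_iff.2 h0
  have hratio : (r / r₂) ^ N * ‖F s₀‖ ≤ ‖h s₀‖ := by
    calc (r / r₂) ^ N * ‖F s₀‖ ≤ (r / r₂) ^ N * (r₂ ^ N * ‖g s₀‖) := by gcongr
      _ = (r / r₂ * r₂) ^ N * ‖g s₀‖ := by rw [mul_pow]; ring
      _ = ‖h s₀‖ := by
        rw [hgs, div_mul_cancel₀ _ hr₂.ne']
  have hpow : (r / r₂) ^ N ≤ Real.exp M := by
    have h1 := hmax s₀ (by rw [sub_self, norm_zero]; exact hr0.le)
    have h2 := hratio.trans h1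
    exact le_of_mul_le_mul_right h2 hF0
  have hNM : (N : ℝ) * Real.log (r / r₂) ≤ M := by
    have h1 : Real.log ((r / r₂) ^ N) ≤ M := by
      rw [Real.log_le_iff_le_exp (by positivity)]
      exact hpow
    rwa [Real.log_pow] at h1
  have hsN : (∑ c ∈ S, (analyticOrderNatAt F c : ℝ)) = N := by
    rw [hN]
    push_cast
    rfl
  refine ⟨S, hSmem, by rw [hsN]; exact hNM, ?_⟩
  rw [hsN]
  intro z hz hFz
  have hzn : ‖z - s₀‖ ≤ r₁ := by
    rwa [mem_closedBall, dist_eq_norm] at hz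
  have hzB : z ∈ ball s₀ R := by
    rw [mem_ball, dist_eq_norm]
    linarith
  have hgz : g z ≠ 0 := by
    intro h1
    apply hFz
    rw [hFg, h1, mul_zero]
  have hh0 : ‖F s₀‖ ≤ ‖h s₀‖ := by
    refine le_trans ?_ hratio
    have : (1 : ℝ) ≤ (r / r₂) ^ N := one_le_pow₀ (by rw [le_div_iff₀ hr₂]; linarith)
    nlinarith
  have hhs0 : h s₀ ≠ 0 := norm_pos_iff.1 (hF0.trans_le hh0)
  have hpos22 : 0 < r ^ 2 - r₂ * r₂ := by nlinarith
  have hpos21 : 0 < r ^ 2 - r₂ * r₁ := by nlinarith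
  -- non-vanishing of h
  have hBl0 : ∀ c ∈ S, ∀ w : ℂ, ‖w - s₀‖ ≤ r₂ → Bl s₀ r c w ≠ 0 := by
    intro c hc w hw h1
    have h2 := Bl_low hr0.le hr₂.le (hSn c hc) hw
    rw [Bl, div_eq_zero_iff] at h1
    rcases h1 with h1 | h1
    · rw [h1, norm_zero] at h2
      linarith
    · exact hr0.ne' (by exact_mod_cast h1)
  have hhne : ∀ w : ℂ, ‖w - s₀‖ ≤ r₂ → h w ≠ 0 := by
    intro w hw
    have hwB : w ∈ ball s₀ R := by
      rw [mem_ball, dist_eq_norm]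
      linarith
    refine mul_ne_zero ?_ ?_
    · rw [hP]
      exact Finset.prod_ne_zero_iff.2 fun c hc => pow_ne_zero _ (hBl0 c hc w hw)
    · intro h1
      have h2 : F w = 0 := by rw [hFg, h1, mul_zero]
      have h3 : w ∈ S := (hSmem w).2 ⟨by rw [mem_closedBall, dist_eq_norm]; exact hw, h2⟩
      exact hgS w h3 h1
  set H : ℂ → ℂ := fun w => h (s₀ + w) / h s₀ with hH
  have hHd : DifferentiableOn ℂ H (ball 0 r₂) := by
    refine DifferentiableOn.div_const ?_ _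
    refine hhd.comp (by fun_prop) ?_
    intro w hw
    rw [mem_ball_zero_iff] at hw
    show s₀ + w ∈ ball s₀ R
    rw [mem_ball, dist_eq_norm, add_sub_cancel_left]
    linarith
  have hHne : ∀ w ∈ ball (0 : ℂ) r₂, H w ≠ 0 := by
    intro w hw
    rw [mem_ball_zero_iff] at hw
    exact div_ne_zero (hhne _ (by rw [add_sub_cancel_left]; exact hw.le)) hhs0
  have hH0 : H 0 = 1 := by
    rw [hH]
    show h (s₀ + 0) / h s₀ = 1
    rw [add_zero, div_self hhs0]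
  have hHb : ∀ w ∈ ball (0 : ℂ) r₂, ‖H w‖ ≤ Real.exp M := by
    intro w hw
    rw [mem_ball_zero_iff] at hw
    show ‖h (s₀ + w) / h s₀‖ ≤ _
    rw [norm_div, div_le_iff₀ (norm_pos_iff.2 hhs0)]
    refine (hmax _ (by rw [add_sub_cancel_left]; linarith)).trans ?_
    gcongr
  have hmain := Pool.Agent.Helper69.QRH.logDeriv_bound (r₁ := r₁) (r₂ := (r₁ + r₂) / 2)
    hr₁ (by linarith) (by linarith) hM hHd hHne hH0 hHb hzn
  have hcalc : 2 * M * ((r₁ + r₂) / 2) / (r₂ - (r₁ + r₂) / 2) / ((r₁ + r₂) / 2 - r₁) ≤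
      8 * M * r₂ / (r₂ - r₁) ^ 2 := by
    have hd : 0 < r₂ - r₁ := by linarith
    have h1 : r₂ - (r₁ + r₂) / 2 = (r₂ - r₁) / 2 := by ring
    have h2 : (r₁ + r₂) / 2 - r₁ = (r₂ - r₁) / 2 := by ring
    rw [h1, h2]
    have h3 : 2 * M * ((r₁ + r₂) / 2) / ((r₂ - r₁) / 2) / ((r₂ - r₁) / 2) =
        4 * M * (r₁ + r₂) / (r₂ - r₁) ^ 2 := by
      field_simp
      ring
    rw [h3]
    apply div_le_div_of_nonneg_right _ (by positivity)
    nlinarith
  have hmain := hmain.trans hcalc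
  -- derivative of H
  have hhz : DifferentiableAt ℂ h z := hhd.differentiableAt (isOpen_ball.mem_nhds hzB)
  have hHz : deriv H (z - s₀) / H (z - s₀) = logDeriv h z := by
    have h1 : HasDerivAt (fun w : ℂ => s₀ + w) 1 (z - s₀) := (hasDerivAt_id _).const_add s₀
    have h2 : HasDerivAt h (deriv h z) (s₀ + (z - s₀)) := by
      rw [add_sub_cancel]
      exact hhz.hasDerivAt
    have h3 : HasDerivAt H (deriv h z * 1 / h s₀) (z - s₀) := (h2.comp _ h1).div_const _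
    rw [h3.deriv, logDeriv_apply]
    show deriv h z * 1 / h s₀ / (h (s₀ + (z - s₀)) / h s₀) = _
    rw [add_sub_cancel]
    have := hhne z (by linarith)
    field_simp
  rw [hHz] at hmain
  -- logarithmic derivatives
  have hBne : ∀ c ∈ S, Bl s₀ r c z ≠ 0 := fun c hc => hBl0 c hc z (by linarith)
  have hgzd : DifferentiableAt ℂ g z := hg.differentiableAt (isOpen_ball.mem_nhds hzB)
  have hlP : logDeriv P z = ∑ c ∈ S, (m c : ℂ) * logDeriv (Bl s₀ r c) z := by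
    rw [hP, logDeriv_prod (f := fun c z => Bl s₀ r c z ^ m c)
      (fun c hc => pow_ne_zero _ (hBne c hc))
      (fun c _ => ((Bl_differentiable s₀ r c).pow _) z)]
    exact Finset.sum_congr rfl fun c _ => logDeriv_fun_pow (Bl_differentiable s₀ r c z) _
  have hlh : logDeriv h z = ∑ c ∈ S, (m c : ℂ) * logDeriv (Bl s₀ r c) z + logDeriv g z := by
    rw [hh, logDeriv_mul (f := P) (g := g) z
      (by rw [hP]; exact Finset.prod_ne_zero_iff.2 fun c hc => pow_ne_zero _ (hBne c hc)) hgz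
      (hPd z) hgzd, hlP]
  have hzS : ∀ c ∈ S, z - c ≠ 0 := by
    intro c hc h1
    rw [sub_eq_zero] at h1
    rw [h1] at hFz
    exact hFz ((hSmem c).1 hc).2
  have hlF : deriv F z / F z = ∑ c ∈ S, (m c : ℂ) / (z - c) + logDeriv g z := by
    rw [← logDeriv_apply]
    have h1 : F = fun z => (∏ c ∈ S, (z - c) ^ m c) * g z := funext hFg
    conv_lhs => rw [h1]
    rw [logDeriv_mul (f := fun z => ∏ c ∈ S, (z - c) ^ m c) (g := g) z
      (Finset.prod_ne_zero_iff.2 fun c hc => pow_ne_zero _ (hzS c hc)) hgz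
      (DifferentiableAt.fun_finsetProd fun c _ => by fun_prop) hgzd,
      logDeriv_prod (f := fun c z => (z - c) ^ m c)
      (fun c hc => pow_ne_zero _ (hzS c hc)) (fun c _ => by fun_prop)]
    congr 1
    refine Finset.sum_congr rfl fun c _ => ?_
    rw [logDeriv_fun_pow (f := fun z => z - c) (by fun_prop), logDeriv_apply]
    have h3 : HasDerivAt (fun z : ℂ => z - c) 1 z := (hasDerivAt_id z).sub_const c
    rw [h3.deriv]
    ring
  have hdiff : deriv F z / F z - ∑ c ∈ S, (analyticOrderNatAt F c : ℂ) / (z - c) =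
      logDeriv h z - ∑ c ∈ S, (m c : ℂ) * logDeriv (Bl s₀ r c) z := by
    rw [hlF, hlh]
    simp only [hm]
    ring
  rw [hdiff]
  refine (norm_sub_le _ _).trans (add_le_add hmain ?_)
  refine (norm_sum_le _ _).trans ?_
  calc ∑ c ∈ S, ‖(m c : ℂ) * logDeriv (Bl s₀ r c) z‖
      ≤ ∑ c ∈ S, (m c : ℝ) * (r₂ / (r ^ 2 - r₂ * r₁)) := by
        refine Finset.sum_le_sum fun c hc => ?_
        rw [norm_mul, Complex.norm_natCast]
        exact mul_le_mul_of_nonneg_left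
          (Bl_logDeriv_gen hr0 hr₂.le (hSn c hc) hzn hpos21) (Nat.cast_nonneg _)
    _ = (N : ℝ) * (r₂ / (r ^ 2 - r₂ * r₁)) := by
        rw [← Finset.sum_mul, hN]
        push_cast
        rfl

end Pool.Agent.Helper33.KSZ
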