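import Pool.Agent.Helper46.KSZ.St
import Pool.Agent.Helper33.KSZ.LandauGen

/-! KSZ-E2: Jensen's inequality for `EZ` at `2 + i t`; and growth of `EZ` for `Re s ≥ 0.26`. -/

set_option autoImplicit false
open Filter Topology Complex Metric

namespace Pool.Agent.Helper33.KSZ

open Pool.Agent.Helper10.QRH Pool.Agent.Helper69.QRH

theorem EZ_bound' : ∃ C : ℝ, 0 < C ∧ ∀ s : ℂ, 0.26 ≤ s.re → ‖EZ s‖ ≤ C * (1 + ‖s‖) ^ 2 := by
  set K : ℝ := ∑' n : ℕ, ((n : ℝ) + 1) ^ (-(1.26 : ℝ)) with hK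
  have hK0 : 0 ≤ K := tsum_nonneg fun n => Real.rpow_nonneg (by positivity) _
  refine ⟨K + 1, by linarith, fun s hs => ?_⟩
  rw [EZ_eq_tsum (by norm_num at hs ⊢; linarith)]
  have hs0 : 0 < s.re := by norm_num at hs; linarith
  have h1 : ‖∑' n : ℕ, TT n s‖ ≤ ‖s - 1‖ * ‖s‖ * K := by
    rw [hK, ← tsum_mul_left]
    refine tsum_of_norm_bounded ((summable_rpow_aux (by norm_num)).mul_left _).hasSum fun n => ?_
    refine (TT_bound n hs0).trans ?_
    refine mul_le_mul_of_nonneg_left ?_ (by positivity)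
    exact Real.rpow_le_rpow_of_exponent_le (by linarith [(n.cast_nonneg : (0 : ℝ) ≤ n)])
      (by norm_num at hs ⊢; linarith)
  have h2 : ‖s - 1‖ ≤ 1 + ‖s‖ := (norm_sub_le _ _).trans (by rw [norm_one]; linarith)
  have h3 := norm_nonneg s
  calc ‖∑' n : ℕ, TT n s + 1‖ ≤ ‖∑' n : ℕ, TT n s‖ + ‖(1 : ℂ)‖ := norm_add_le _ _
    _ ≤ ‖s - 1‖ * ‖s‖ * K + 1 := by
      rw [norm_one]
      linarith
    _ ≤ (1 + ‖s‖) * (1 + ‖s‖) * K + (1 + ‖s‖) ^ 2 := by
      have h4 : ‖s - 1‖ * ‖s‖ ≤ (1 + ‖s‖) * (1 + ‖s‖) :=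
        mul_le_mul h2 (by linarith) h3 (by linarith)
      have h5 := mul_le_mul_of_nonneg_right h4 hK0
      nlinarith
    _ = (K + 1) * (1 + ‖s‖) ^ 2 := by ring

lemma log_bound {K : ℝ} (hK : 0 < K) : ∃ C : ℝ, 0 < C ∧ ∀ t : ℝ,
    Real.log (K * (5 + |t|) ^ 2) ≤ C * Real.log (|t| + 2) := by
  have hlog2 : 0 < Real.log 2 := Real.log_pos (by norm_num)
  refine ⟨|Real.log (9 * K)| / Real.log 2 + 2, by positivity, fun t => ?_⟩
  have ht := abs_nonneg t
  have hl : Real.log 2 ≤ Real.log (|t| + 2) := Real.log_le_log (by norm_num) (by linarith)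
  calc Real.log (K * (5 + |t|) ^ 2) ≤ Real.log (9 * K * (|t| + 2) ^ 2) := by
        apply Real.log_le_log (by positivity)
        have h9 : (5 + |t|) ^ 2 ≤ 9 * (|t| + 2) ^ 2 := by nlinarith
        calc K * (5 + |t|) ^ 2 ≤ K * (9 * (|t| + 2) ^ 2) := by gcongr
          _ = 9 * K * (|t| + 2) ^ 2 := by ring
    _ = Real.log (9 * K) + 2 * Real.log (|t| + 2) := by
        rw [Real.log_mul (by positivity) (by positivity), Real.log_pow]
        push_cast
        ring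
    _ ≤ |Real.log (9 * K)| / Real.log 2 * Real.log (|t| + 2) + 2 * Real.log (|t| + 2) := by
        gcongr
        calc Real.log (9 * K) ≤ |Real.log (9 * K)| := le_abs_self _
          _ = |Real.log (9 * K)| / Real.log 2 * Real.log 2 := by field_simp
          _ ≤ _ := by gcongr
    _ = _ := by ring

lemma center_norm (t : ℝ) : ‖(2 : ℂ) + t * I‖ ≤ 2 + |t| := by
  refine (norm_add_le _ _).trans ?_
  rw [norm_mul, Complex.norm_I, mul_one, Complex.norm_real, Real.norm_eq_abs, Complex.norm_ofNat]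

lemma EZ_center (t : ℝ) : 1 / 3 ≤ ‖EZ (2 + t * I)‖ := by
  have hre : ((2 : ℂ) + t * I).re = 2 := by simp
  have hs01 : (2 : ℂ) + t * I ≠ 1 := by
    intro h
    have := congrArg Complex.re h
    rw [hre] at this
    norm_num at this
  rw [EZ_eq hs01, norm_mul]
  have h1 := zeta_two_line hre
  have h2 : 1 ≤ ‖(2 : ℂ) + t * I - 1‖ := by
    have := Complex.re_le_norm ((2 : ℂ) + t * I - 1)
    rw [Complex.sub_re, hre, Complex.one_re] at this
    linarith
  nlinarith [norm_nonneg (riemannZeta ((2 : ℂ) + t * I))]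

lemma PB_circle {s₀ : ℂ} {r : ℝ} (hr : 0 < r) (N : Multiset ℂ) {z : ℂ} (hz : ‖z - s₀‖ = r) :
    ‖(N.map (fun ρ => Bl s₀ r ρ z)).prod‖ = ‖Qp N z‖ := by
  induction N using Multiset.induction_on with
  | empty => simp [Qp]
  | cons a N ih =>
    rw [Qp_cons, Multiset.map_cons, Multiset.prod_cons, norm_mul, norm_mul, ih,
      Bl_norm_circle hr hz]

lemma PB_center {s₀ : ℂ} {r : ℝ} (hr : 0 < r) (N : Multiset ℂ) :
    (N.map (fun ρ => Bl s₀ r ρ s₀)).prod = (r : ℂ) ^ (Multiset.card N) := by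
  induction N using Multiset.induction_on with
  | empty => simp
  | cons a N ih =>
    rw [Multiset.map_cons, Multiset.prod_cons, Multiset.card_cons, pow_succ, ih,
      Bl_center s₀ hr]
    ring

lemma PB_diff (s₀ : ℂ) (r : ℝ) (N : Multiset ℂ) :
    Differentiable ℂ (fun z => (N.map (fun ρ => Bl s₀ r ρ z)).prod) := by
  induction N using Multiset.induction_on with
  | empty => simp
  | cons a N ih =>
    simp only [Multiset.map_cons, Multiset.prod_cons]
    exact (Bl_differentiable s₀ r a).mul ih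

theorem jensenEZ : Pool.Agent.Helper46.KSZ.JensenEZ := by
  obtain ⟨C₀, hC₀, hEZ⟩ := EZ_bound
  obtain ⟨C, hC, hlog⟩ := log_bound (K := 3 * C₀) (by positivity)
  have hL : 0 < Real.log (1.5 / 1.45 : ℝ) := Real.log_pos (by norm_num)
  refine ⟨C / Real.log (1.5 / 1.45), by positivity, ?_⟩
  intro N Z hZ hfac t hN
  set s₀ : ℂ := 2 + t * I with hs₀
  have hs₀re : s₀.re = 2 := by simp [hs₀]
  set h : ℂ → ℂ := fun z => (N.map (fun ρ => Bl s₀ 1.5 ρ z)).prod * Z z with hh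
  have hr0 : (0 : ℝ) < 1.5 := by norm_num
  have hd : Differentiable ℂ h := (PB_diff s₀ 1.5 N).mul hZ
  have hmax : ‖h s₀‖ ≤ C₀ * (5 + |t|) ^ 2 := by
    refine Complex.norm_le_of_forall_mem_frontier_norm_le (U := ball s₀ 1.5) isBounded_ball
      hd.diffContOnCl ?_ (subset_closure (mem_ball_self hr0))
    intro w hw
    rw [frontier_ball s₀ hr0.ne', mem_sphere, dist_eq_norm] at hw
    have h1 : ‖h w‖ = ‖EZ w‖ := by
      rw [hh, hfac w, norm_mul, norm_mul, PB_circle hr0 N hw]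
    rw [h1]
    have h2 : 1 / 2 ≤ w.re := by
      have h3 := (abs_le.1 (Complex.abs_re_le_norm (w - s₀))).1
      rw [Complex.sub_re, hs₀re, hw] at h3
      norm_num at h3 ⊢
      linarith
    have h4 : ‖w‖ ≤ 1.5 + (2 + |t|) := by
      calc ‖w‖ = ‖(w - s₀) + s₀‖ := by rw [sub_add_cancel]
        _ ≤ ‖w - s₀‖ + ‖s₀‖ := norm_add_le _ _
        _ ≤ 1.5 + (2 + |t|) := by rw [hw]; gcongr; exact center_norm t
    refine (hEZ w h2).trans ?_
    have h5 : 1 + ‖w‖ ≤ 5 + |t| := by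
      norm_num at h4 ⊢
      linarith
    gcongr
  have hcen : ‖h s₀‖ = 1.5 ^ Multiset.card N * ‖Z s₀‖ := by
    rw [hh]
    show ‖(N.map (fun ρ => Bl s₀ 1.5 ρ s₀)).prod * Z s₀‖ = _
    rw [PB_center hr0, norm_mul, norm_pow, Complex.norm_real, Real.norm_eq_abs,
      abs_of_pos hr0]
  have hQ : ‖Qp N s₀‖ ≤ 1.45 ^ Multiset.card N :=
    Qp_upper N s₀ _ (by norm_num) fun ρ hρ => by rw [norm_sub_rev]; exact hN ρ hρ
  have hE := EZ_center t
  rw [← hs₀, hfac s₀, norm_mul] at hE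
  set n := Multiset.card N with hn
  have hfin : (1.5 / 1.45 : ℝ) ^ n ≤ 3 * C₀ * (5 + |t|) ^ 2 := by
    have h1 : (1.5 / 1.45 : ℝ) ^ n * (1 / 3) ≤ 1.5 ^ n * ‖Z s₀‖ := by
      calc (1.5 / 1.45 : ℝ) ^ n * (1 / 3) ≤ (1.5 / 1.45 : ℝ) ^ n * (‖Qp N s₀‖ * ‖Z s₀‖) := by
            gcongr
        _ ≤ (1.5 / 1.45 : ℝ) ^ n * (1.45 ^ n * ‖Z s₀‖) := by gcongr
        _ = 1.5 ^ n * ‖Z s₀‖ := by
            rw [div_pow]
            field_simp
    rw [← hcen] at h1
    have h2 := h1.trans hmax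
    linarith
  have h1 : (n : ℝ) * Real.log (1.5 / 1.45) ≤ C * Real.log (|t| + 2) := by
    rw [← Real.log_pow]
    refine le_trans (Real.log_le_log (by positivity) hfin) (hlog t)
  rw [div_mul_eq_mul_div, le_div_iff₀ hL]
  exact h1

end Pool.Agent.Helper33.KSZ
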