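import Pool.Agent.Helper33.KSZ.ZetaLocal
import Pool.Agent.Helper18.KSZ.NSpec

/-! KSZ A9 (iii): zeros near `1 + i t`; the 3-4-1 inequality; lower bound of zeta. -/

set_option autoImplicit false
open Filter Topology Complex Metric

namespace Pool.Agent.Helper33.KSZ

open Pool.Agent.Helper10.QRH Pool.Agent.Helper69.QRH

/-- the coefficient function -/
noncomputable def Lam (n : ℕ) : ℂ := (ArithmeticFunction.vonMangoldt n : ℂ)

/-- `∑ Λ(n) n^{-σ}` -/
noncomputable def VV (σ : ℝ) : ℝ := ∑' n : ℕ, ‖LSeries.term Lam (σ : ℂ) n‖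

lemma summable_term {s : ℂ} (hs : 1 < s.re) : Summable (fun n => ‖LSeries.term Lam s n‖) :=
  (ArithmeticFunction.LSeriesSummable_vonMangoldt hs).norm

lemma norm_term_eq (s : ℂ) (n : ℕ) :
    ‖LSeries.term Lam s n‖ = ‖LSeries.term Lam ((s.re : ℝ) : ℂ) n‖ := by
  rw [LSeries.norm_term_eq, LSeries.norm_term_eq, Complex.ofReal_re]

lemma norm_LS_le {s : ℂ} (hs : 1 < s.re) : ‖LSeries Lam s‖ ≤ VV s.re := by
  unfold VV LSeries
  refine (norm_tsum_le_tsum_norm (summable_term hs)).trans (le_of_eq ?_)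
  exact tsum_congr fun n => norm_term_eq s n

lemma term_val {n : ℕ} (hn : n ≠ 0) (s : ℂ) : LSeries.term Lam s n =
    (ArithmeticFunction.vonMangoldt n : ℂ) * cexp (-(s * (Real.log n : ℂ))) := by
  rw [LSeries.term_of_ne_zero hn, Complex.cpow_def_of_ne_zero (by exact_mod_cast hn),
    Complex.exp_neg, ← Complex.natCast_log, Lam, mul_comm s, div_eq_mul_inv]

lemma term_re (n : ℕ) (σ t : ℝ) : (LSeries.term Lam (σ + t * I) n).re =
    ‖LSeries.term Lam (σ : ℂ) n‖ * Real.cos (t * Real.log n) := by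
  rcases eq_or_ne n 0 with rfl | hn
  · simp
  · obtain ⟨l, hl⟩ : ∃ l : ℝ, l = Real.log n := ⟨_, rfl⟩
    have h1 : ‖LSeries.term Lam (σ : ℂ) n‖ =
        ArithmeticFunction.vonMangoldt n * Real.exp (-(σ * l)) := by
      rw [term_val hn, ← hl, norm_mul, Complex.norm_exp, Complex.norm_real, Real.norm_eq_abs,
        abs_of_nonneg ArithmeticFunction.vonMangoldt_nonneg]
      congr 2
      simp
    rw [h1, term_val hn, ← hl, Complex.re_ofReal_mul, Complex.exp_re]
    have h2 : (-((σ + t * I) * (l : ℂ))).re = -(σ * l) := by simp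
    have h3 : (-((σ + t * I) * (l : ℂ))).im = -(t * l) := by simp
    rw [h2, h3, Real.cos_neg, mul_assoc]

lemma re_LS {σ : ℝ} (hσ : 1 < σ) (t : ℝ) : (LSeries Lam (σ + t * I)).re =
    ∑' n : ℕ, ‖LSeries.term Lam (σ : ℂ) n‖ * Real.cos (t * Real.log n) := by
  have hs : 1 < ((σ : ℂ) + t * I).re := by simpa using hσ
  have h1 : Summable (fun n => LSeries.term Lam (σ + t * I) n) :=
    ArithmeticFunction.LSeriesSummable_vonMangoldt hs
  unfold LSeries
  rw [Complex.re_tsum h1]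
  exact tsum_congr fun n => term_re n σ t

/-- the 3-4-1 inequality -/
lemma three_four_one {σ : ℝ} (hσ : 1 < σ) (t : ℝ) :
    0 ≤ 3 * VV σ + 4 * (LSeries Lam (σ + t * I)).re +
      (LSeries Lam (σ + (2 * t : ℝ) * I)).re := by
  have hs : 1 < ((σ : ℝ) : ℂ).re := by simpa using hσ
  have hS := summable_term hs
  have hc : ∀ u : ℝ, Summable (fun n : ℕ => ‖LSeries.term Lam (σ : ℂ) n‖ *
      Real.cos (u * Real.log n)) := by
    intro u
    refine Summable.of_norm_bounded hS fun n => ?_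
    rw [norm_mul, norm_norm]
    exact mul_le_of_le_one_right (norm_nonneg _) (Real.abs_cos_le_one _)
  rw [re_LS hσ t, re_LS hσ (2 * t), VV, ← tsum_mul_left, ← tsum_mul_left,
    ← (hS.mul_left 3).tsum_add ((hc t).mul_left 4),
    ← ((hS.mul_left 3).add ((hc t).mul_left 4)).tsum_add (hc (2 * t))]
  refine tsum_nonneg fun n => ?_
  set θ := t * Real.log n with hθ
  have h1 : 2 * t * Real.log n = 2 * θ := by rw [hθ]; ring
  rw [h1, Real.cos_two_mul]
  have h2 : 3 * ‖LSeries.term Lam (σ : ℂ) n‖ + 4 * (‖LSeries.term Lam (σ : ℂ) n‖ * Real.cos θ) +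
      ‖LSeries.term Lam (σ : ℂ) n‖ * (2 * Real.cos θ ^ 2 - 1) =
      2 * ‖LSeries.term Lam (σ : ℂ) n‖ * (1 + Real.cos θ) ^ 2 := by ring
  rw [h2]
  positivity

lemma EZ_ne {s : ℂ} (hs : 1 ≤ s.re) : EZ s ≠ 0 := by
  intro h
  have h1 := zero_of_EZ h
  have h2 := (zero_facts h1.1).2.1
  linarith

lemma VV_eq {σ : ℝ} (hσ : 1 < σ) : VV σ = (LSeries Lam (σ : ℂ)).re := by
  have := re_LS hσ 0
  simp only [Complex.ofReal_zero, zero_mul, add_zero, Real.cos_zero, mul_one] at this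
  rw [this]
  rfl

lemma VV_bound : ∃ C : ℝ, 0 < C ∧ ∀ σ : ℝ, 1 < σ → σ ≤ 2 → VV σ ≤ 1 / (σ - 1) + C := by
  have hcont : ContinuousOn (fun σ : ℝ => logDeriv EZ (σ : ℂ)) (Set.Icc 1 2) := by
    have h1 : Continuous (deriv EZ) :=
      (EZ_differentiable.contDiff (n := 1)).continuous_deriv le_rfl
    have h2 : Continuous EZ := EZ_differentiable.continuous
    have h3 : ∀ σ ∈ Set.Icc (1 : ℝ) 2, EZ (σ : ℂ) ≠ 0 := fun σ hσ =>
      EZ_ne (by simpa using hσ.1)
    exact ContinuousOn.div (h1.comp Complex.continuous_ofReal).continuousOn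
      (h2.comp Complex.continuous_ofReal).continuousOn h3
  obtain ⟨C, hC⟩ := isCompact_Icc.exists_bound_of_continuousOn hcont
  refine ⟨|C| + 1, by positivity, fun σ h1 h2 => ?_⟩
  rw [VV_eq h1]
  have h3 : LSeries Lam (σ : ℂ) = 1 / ((σ : ℂ) - 1) - logDeriv EZ (σ : ℂ) := by
    rw [logDeriv_EZ (by simpa using h1)]
    unfold Lam
    ring
  have h4 : (1 / ((σ : ℂ) - 1)).re = 1 / (σ - 1) := by
    have : (1 / ((σ : ℂ) - 1)) = ((1 / (σ - 1) : ℝ) : ℂ) := by push_cast; ring
    rw [this, Complex.ofReal_re]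
  rw [h3, Complex.sub_re, h4]
  have h5 := hC σ ⟨h1.le, h2⟩
  have h6 := (abs_le.1 (Complex.abs_re_le_norm (logDeriv EZ (σ : ℂ)))).1
  have h7 := le_abs_self C
  linarith

lemma deriv_zeta_div {s : ℂ} (hs : 1 < s.re) :
    deriv riemannZeta s / riemannZeta s = -LSeries Lam s := by
  have := ArithmeticFunction.LSeries_vonMangoldt_eq_deriv_riemannZeta_div hs
  unfold Lam
  rw [this]
  ring

/-- **(A9 iii)** -/
theorem inA9 : Pool.Agent.Helper18.KSZ.InA9 := by
  classical
  obtain ⟨C, hC, hloc⟩ := local_EZ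
  obtain ⟨C₁, hC₁, hV⟩ := VV_bound
  have hlog2 : 0 < Real.log 2 := Real.log_pos (by norm_num)
  refine ⟨4 + 4 * (C₁ + 1 + 2 * C), by positivity, ?_⟩
  intro t r ht hr hr1 Z hZ
  obtain ⟨S, hS, hc, hld⟩ := hloc t
  have hlt : 0 ≤ Real.log (|t| + 2) := Real.log_nonneg (by linarith [abs_nonneg t])
  have hl4 : 1 ≤ Real.log (|t| + 2) := by
    have h1 : Real.log (Real.exp 1) ≤ Real.log (|t| + 2) := by
      apply Real.log_le_log (Real.exp_pos 1)
      have := Real.exp_one_lt_d9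
      linarith
    rwa [Real.log_exp] at h1
  set s : ℂ := ((1 + r : ℝ) : ℂ) + t * I with hs
  have hsre : s.re = 1 + r := by simp [hs]
  have hsim : s.im = t := by simp [hs]
  have hs1 : s ≠ 1 := by
    intro h
    have := congrArg Complex.re h
    rw [hsre, Complex.one_re] at this
    linarith
  have hsre1 : 1 < s.re := by rw [hsre]; linarith
  have hzs : riemannZeta s ≠ 0 := riemannZeta_ne_zero_of_one_lt_re hsre1
  have hsB : s ∈ closedBall ((2 : ℂ) + t * I) 1.5 := by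
    rw [mem_closedBall, dist_eq_norm]
    have h5 : s - ((2 : ℂ) + t * I) = ((r - 1 : ℝ) : ℂ) := by
      rw [hs]; push_cast; ring
    rw [h5, Complex.norm_real, Real.norm_eq_abs, abs_le]
    norm_num
    constructor <;> linarith
  have hmain := hld s hsB (EZ_ne hsre1.le)
  rw [logDeriv_EZ_eq hs1 hzs] at hmain
  -- bound of the logarithmic derivative
  have h1 : ‖deriv riemannZeta s / riemannZeta s + 1 / (s - 1)‖ ≤ 1 / r + C₁ + 1 := by
    refine (norm_add_le _ _).trans ?_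
    have h2 : ‖deriv riemannZeta s / riemannZeta s‖ ≤ 1 / r + C₁ := by
      rw [deriv_zeta_div hsre1, norm_neg]
      refine (norm_LS_le hsre1).trans ?_
      rw [hsre]
      have := hV (1 + r) (by linarith) (by linarith)
      rwa [add_sub_cancel_left] at this
    have h3 : ‖1 / (s - 1)‖ ≤ 1 := by
      rw [norm_div, norm_one, div_le_one]
      · have h4 := Complex.abs_im_le_norm (s - 1)
        rw [Complex.sub_im, hsim, Complex.one_im, sub_zero] at h4
        linarith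
      · exact norm_pos_iff.2 (sub_ne_zero.2 hs1)
    linarith
  have h2 : (∑ c ∈ S, (analyticOrderNatAt EZ c : ℂ) / (s - c)).re ≤
      1 / r + C₁ + 1 + C * Real.log (|t| + 2) := by
    have h3 := Complex.re_le_norm (∑ c ∈ S, (analyticOrderNatAt EZ c : ℂ) / (s - c))
    have h4 : ‖∑ c ∈ S, (analyticOrderNatAt EZ c : ℂ) / (s - c)‖ ≤
        ‖deriv riemannZeta s / riemannZeta s + 1 / (s - 1)‖ +
        ‖deriv riemannZeta s / riemannZeta s + 1 / (s - 1) -
          ∑ c ∈ S, (analyticOrderNatAt EZ c : ℂ) / (s - c)‖ := by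
      have := norm_sub_le (deriv riemannZeta s / riemannZeta s + 1 / (s - 1))
        (deriv riemannZeta s / riemannZeta s + 1 / (s - 1) -
          ∑ c ∈ S, (analyticOrderNatAt EZ c : ℂ) / (s - c))
      rwa [sub_sub_cancel] at this
    linarith
  -- lower bound
  have hre : ∀ c ∈ S, 0 ≤ ((analyticOrderNatAt EZ c : ℂ) / (s - c)).re := by
    intro c hcS
    have h3 := zero_facts (zero_of_EZ ((hS c).1 hcS).2).1
    have h4 : ((analyticOrderNatAt EZ c : ℂ) / (s - c)) =
      ((analyticOrderNatAt EZ c : ℝ) : ℂ) * (1 / (s - c)) := by push_cast; ring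
    rw [h4, Complex.re_ofReal_mul, one_div, Complex.inv_re]
    refine mul_nonneg (Nat.cast_nonneg _) (div_nonneg ?_ (Complex.normSq_nonneg _))
    rw [Complex.sub_re, hsre]
    linarith [h3.2.1]
  have hsub : Z ⊆ S := by
    intro ρ hρ
    obtain ⟨h3, h4⟩ := hZ ρ hρ
    rw [hS]
    refine ⟨?_, (zero_facts h3).2.2⟩
    rw [mem_closedBall, dist_eq_norm]
    calc ‖ρ - (2 + t * I)‖ = ‖(ρ - (1 + t * I)) + (-1)‖ := by congr 1; ring
      _ ≤ ‖ρ - (1 + t * I)‖ + ‖(-1 : ℂ)‖ := norm_add_le _ _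
      _ ≤ 1 / 10 + 1 := by
        rw [norm_neg, norm_one]
        linarith
      _ ≤ 1.6 := by norm_num
  have h3 : (∑ ρ ∈ Z, (analyticOrderNatAt riemannZeta ρ : ℝ)) / (4 * r) ≤
      (∑ c ∈ S, (analyticOrderNatAt EZ c : ℂ) / (s - c)).re := by
    rw [Complex.re_sum, Finset.sum_div]
    refine le_trans (Finset.sum_le_sum fun ρ hρ => ?_)
      (Finset.sum_le_sum_of_subset_of_nonneg hsub fun c hc _ => hre c hc)
    obtain ⟨h4, h5⟩ := hZ ρ hρ
    obtain ⟨h6, h7, h8⟩ := zero_facts h4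
    have h9 : ((analyticOrderNatAt EZ ρ : ℂ) / (s - ρ)) =
      ((analyticOrderNatAt EZ ρ : ℝ) : ℂ) * (1 / (s - ρ)) := by push_cast; ring
    rw [h9, Complex.re_ofReal_mul, one_div, Complex.inv_re, orderNat_EZ h6, div_eq_mul_one_div]
    refine mul_le_mul_of_nonneg_left ?_ (Nat.cast_nonneg _)
    have h10 : r ≤ (s - ρ).re := by
      rw [Complex.sub_re, hsre]
      linarith
    have h11 : ‖s - ρ‖ ≤ 2 * r := by
      have h12 : s - ρ = ((r : ℝ) : ℂ) - (ρ - (1 + t * I)) := by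
        rw [hs]; push_cast; ring
      rw [h12]
      refine (norm_sub_le _ _).trans ?_
      rw [Complex.norm_real, Real.norm_eq_abs, abs_of_pos hr]
      linarith
    have h13 : Complex.normSq (s - ρ) ≤ 4 * r ^ 2 := by
      rw [Complex.normSq_eq_norm_sq]
      nlinarith [norm_nonneg (s - ρ)]
    have h14 : 0 < Complex.normSq (s - ρ) := by
      rw [Complex.normSq_pos]
      intro h15
      rw [h15, Complex.zero_re] at h10
      linarith
    rw [div_le_div_iff₀ (by positivity) h14]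
    nlinarith
  have h4 := h3.trans h2
  rw [div_le_iff₀ (by positivity)] at h4
  show ∑ ρ ∈ Z, (analyticOrderNatAt riemannZeta ρ : ℝ) ≤ _
  refine h4.trans ?_
  have h5 : (1 / r + C₁ + 1 + C * Real.log (|t| + 2)) * (4 * r) =
      4 + 4 * (C₁ + 1 + C * Real.log (|t| + 2)) * r := by
    field_simp
    ring
  rw [h5]
  have h6 : C₁ + 1 + C * Real.log (|t| + 2) ≤ (C₁ + 1 + 2 * C) * Real.log (|t| + 2) := by
    nlinarith
  have h7 : 0 ≤ r * Real.log (|t| + 2) := by positivity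
  nlinarith

end Pool.Agent.Helper33.KSZ
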