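import Pool.Agent.Helper69.QRH.A2

/-! KSZ A8: Landau's lemma. Zeros of an analytic function in a disc, with multiplicities
`analyticOrderNatAt`, their number, and the logarithmic derivative near the centre. -/

set_option autoImplicit false
open Filter Topology Complex Metric

namespace Pool.Agent.Helper33.KSZ

/-- dividing out one point -/
lemma factor_one {s₀ : ℂ} {R : ℝ} {F : ℂ → ℂ} (hF : DifferentiableOn ℂ F (ball s₀ R))
    (hne : ∃ z ∈ ball s₀ R, F z ≠ 0) {c : ℂ} (hc : c ∈ ball s₀ R) :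
    ∃ g : ℂ → ℂ, DifferentiableOn ℂ g (ball s₀ R) ∧ g c ≠ 0 ∧
      ∀ z, F z = (z - c) ^ (analyticOrderNatAt F c) * g z := by
  have hFa : AnalyticOnNhd ℂ F (ball s₀ R) := hF.analyticOnNhd isOpen_ball
  obtain ⟨p, hp⟩ := hFa c hc
  have hconn : IsPreconnected (ball s₀ R) := (convex_ball s₀ R).isPreconnected
  have hnot : ¬ ∀ᶠ z in 𝓝 c, F z = 0 := by
    intro h1
    obtain ⟨z, hz, hz0⟩ := hne
    exact hz0 (hFa.eqOn_zero_of_preconnected_of_eventuallyEq_zero hconn hc h1 hz)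
  have hp0 : p ≠ 0 := fun h => hnot (hp.locally_zero_iff.2 h)
  have hdiff : ∀ n : ℕ, DifferentiableOn ℂ ((Function.swap dslope c)^[n] F) (ball s₀ R) := by
    intro n
    induction n with
    | zero => exact hF
    | succ n ih =>
      rw [Function.iterate_succ_apply']
      exact (Complex.differentiableOn_dslope (isOpen_ball.mem_nhds hc)).2 ih
  have hgc := hp.iterate_dslope_fslope_ne_zero hp0
  have heq : ∀ z, F z = (z - c) ^ p.order * ((Function.swap dslope c)^[p.order] F) z := by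
    intro z
    have h2 := hp.eq_pow_order_mul_iterate_dslope z
    simpa using h2
  have hord : analyticOrderNatAt F c = p.order := by
    rw [(hFa c hc).analyticOrderNatAt_eq_iff]
    · refine ⟨_, (hdiff p.order).analyticAt (isOpen_ball.mem_nhds hc), hgc, ?_⟩
      exact Eventually.of_forall fun z => by rw [smul_eq_mul]; exact heq z
    · rw [Ne, analyticOrderAt_eq_top]
      exact hnot
  refine ⟨_, hdiff p.order, hgc, ?_⟩
  rw [hord]
  exact heq

/-- dividing out finitely many points -/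
lemma factor_fin {s₀ : ℂ} {R : ℝ} (S : Finset ℂ) : ∀ {F : ℂ → ℂ},
    DifferentiableOn ℂ F (ball s₀ R) → (∃ z ∈ ball s₀ R, F z ≠ 0) →
    (∀ c ∈ S, c ∈ ball s₀ R) →
    ∃ g : ℂ → ℂ, DifferentiableOn ℂ g (ball s₀ R) ∧ (∀ c ∈ S, g c ≠ 0) ∧
      ∀ z, F z = (∏ c ∈ S, (z - c) ^ (analyticOrderNatAt F c)) * g z := by
  classical
  induction S using Finset.induction_on with
  | empty =>
    intro F hF hne hS
    exact ⟨F, hF, by simp, by simp⟩
  | insert a S haS ih =>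
    intro F hF hne hS
    have haB : a ∈ ball s₀ R := hS a (Finset.mem_insert_self a S)
    obtain ⟨g, hg, hga, hFg⟩ := factor_one hF hne haB
    obtain ⟨z1, hz1, hz1'⟩ := hne
    have hgne : ∃ z ∈ ball s₀ R, g z ≠ 0 := ⟨a, haB, hga⟩
    obtain ⟨G, hG, hG0, hgG⟩ := ih hg hgne fun c hc => hS c (Finset.mem_insert_of_mem hc)
    set n := analyticOrderNatAt F a with hn
    have hordS : ∀ c ∈ S, analyticOrderNatAt F c = analyticOrderNatAt g c := by
      intro c hc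
      have hcB : c ∈ ball s₀ R := hS c (Finset.mem_insert_of_mem hc)
      have hca : c ≠ a := by
        rintro rfl
        exact haS hc
      have h1 : AnalyticAt ℂ (fun z : ℂ => (z - a) ^ n) c := by fun_prop
      have h2 : AnalyticAt ℂ g c := hg.analyticAt (isOpen_ball.mem_nhds hcB)
      have h3 : F = (fun z : ℂ => (z - a) ^ n) * g := by
        funext z
        rw [Pi.mul_apply]
        exact hFg z
      have h4 : analyticOrderAt (fun z : ℂ => (z - a) ^ n) c = 0 := by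
        rw [h1.analyticOrderAt_eq_zero]
        exact pow_ne_zero _ (sub_ne_zero.2 hca)
      have h5 : analyticOrderAt F c = analyticOrderAt g c := by
        rw [h3, analyticOrderAt_mul h1 h2, h4, zero_add]
      unfold analyticOrderNatAt
      rw [h5]
    refine ⟨G, hG, ?_, ?_⟩
    · intro c hc
      rcases Finset.mem_insert.1 hc with rfl | hc
      · intro h0
        apply hga
        rw [hgG, h0, mul_zero]
      · exact hG0 c hc
    · intro z
      rw [Finset.prod_insert haS, Finset.prod_congr rfl fun c hc => by rw [hordS c hc], hFg, hgG,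
        mul_assoc]

/-- finitely many zeros in a smaller closed disc -/
lemma zeros_finite {s₀ : ℂ} {R r : ℝ} (hr : r < R) {F : ℂ → ℂ}
    (hF : DifferentiableOn ℂ F (ball s₀ R)) (hne : ∃ z ∈ ball s₀ R, F z ≠ 0) :
    {z : ℂ | z ∈ closedBall s₀ r ∧ F z = 0}.Finite := by
  by_contra hinf
  have hinf' : {z : ℂ | z ∈ closedBall s₀ r ∧ F z = 0}.Infinite := hinf
  obtain ⟨x, hx, hacc⟩ := hinf'.exists_accPt_of_subset_isCompact (isCompact_closedBall s₀ r)
    (fun z hz => hz.1)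
  have hxB : x ∈ ball s₀ R := closedBall_subset_ball hr hx
  have hFa : AnalyticOnNhd ℂ F (ball s₀ R) := hF.analyticOnNhd isOpen_ball
  have hconn : IsPreconnected (ball s₀ R) := (convex_ball s₀ R).isPreconnected
  have hfreq : ∃ᶠ z in 𝓝[≠] x, F z = 0 := by
    rw [accPt_iff_frequently_nhdsNE] at hacc
    exact hacc.mono fun z hz => hz.2
  obtain ⟨z, hz, hz0⟩ := hne
  exact hz0 (hFa.eqOn_zero_of_preconnected_of_frequently_eq_zero hconn hxB hfreq hz)


/-- the reflected linear factor, `(r² - conj (c - s₀) (z - s₀)) / r` -/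
noncomputable def Bl (s₀ : ℂ) (r : ℝ) (c z : ℂ) : ℂ :=
  ((r : ℂ) ^ 2 - (starRingEnd ℂ) (c - s₀) * (z - s₀)) / r

lemma Bl_norm_circle {s₀ : ℂ} {r : ℝ} (hr : 0 < r) {c z : ℂ} (hz : ‖z - s₀‖ = r) :
    ‖Bl s₀ r c z‖ = ‖z - c‖ := by
  have h1 : (r : ℂ) ^ 2 = (starRingEnd ℂ) (z - s₀) * (z - s₀) := by
    rw [mul_comm, Complex.mul_conj, Complex.normSq_eq_norm_sq, hz]
    push_cast
    ring
  have h2 : (r : ℂ) ^ 2 - (starRingEnd ℂ) (c - s₀) * (z - s₀) =
      (starRingEnd ℂ) (z - c) * (z - s₀) := by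
    rw [h1, ← sub_mul, ← map_sub]
    congr 2
    ring
  rw [Bl, h2, norm_div, norm_mul, RCLike.norm_conj, hz, Complex.norm_real, Real.norm_eq_abs,
    abs_of_pos hr]
  field_simp

lemma Bl_differentiable (s₀ : ℂ) (r : ℝ) (c : ℂ) : Differentiable ℂ (Bl s₀ r c) := by
  unfold Bl
  fun_prop

lemma Bl_center (s₀ : ℂ) {r : ℝ} (hr : 0 < r) (c : ℂ) : Bl s₀ r c s₀ = r := by
  have : (r : ℂ) ≠ 0 := by exact_mod_cast hr.ne'
  rw [Bl, sub_self, mul_zero, sub_zero]
  field_simp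

lemma Bl_lower {s₀ : ℂ} {R : ℝ} (hR : 0 < R) {c z : ℂ} (hc : ‖c - s₀‖ ≤ R / 2)
    (hz : ‖z - s₀‖ ≤ R / 2) :
    5 / 16 * R ^ 2 ≤ ‖((3 * R / 4 : ℝ) : ℂ) ^ 2 - (starRingEnd ℂ) (c - s₀) * (z - s₀)‖ := by
  have h1 := norm_sub_norm_le (((3 * R / 4 : ℝ) : ℂ) ^ 2) ((starRingEnd ℂ) (c - s₀) * (z - s₀))
  rw [norm_pow, Complex.norm_real, Real.norm_eq_abs, abs_of_pos (by positivity), norm_mul,
    RCLike.norm_conj] at h1
  have h2 : ‖c - s₀‖ * ‖z - s₀‖ ≤ R / 2 * (R / 2) :=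
    mul_le_mul hc hz (norm_nonneg _) (by positivity)
  nlinarith

lemma Bl_lower' {s₀ : ℂ} {R : ℝ} (hR : 0 < R) {c z : ℂ} (hc : ‖c - s₀‖ ≤ R / 2)
    (hz : ‖z - s₀‖ ≤ R / 4) :
    7 / 16 * R ^ 2 ≤ ‖((3 * R / 4 : ℝ) : ℂ) ^ 2 - (starRingEnd ℂ) (c - s₀) * (z - s₀)‖ := by
  have h1 := norm_sub_norm_le (((3 * R / 4 : ℝ) : ℂ) ^ 2) ((starRingEnd ℂ) (c - s₀) * (z - s₀))
  rw [norm_pow, Complex.norm_real, Real.norm_eq_abs, abs_of_pos (by positivity), norm_mul,
    RCLike.norm_conj] at h1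
  have h2 : ‖c - s₀‖ * ‖z - s₀‖ ≤ R / 2 * (R / 4) :=
    mul_le_mul hc hz (norm_nonneg _) (by positivity)
  nlinarith

lemma Bl_logDeriv {s₀ : ℂ} {R : ℝ} (hR : 0 < R) {c z : ℂ} (hc : ‖c - s₀‖ ≤ R / 2)
    (hz : ‖z - s₀‖ ≤ R / 4) : ‖logDeriv (Bl s₀ (3 * R / 4) c) z‖ ≤ 2 / R := by
  have h1 := Bl_lower' hR hc hz
  have hr : ((3 * R / 4 : ℝ) : ℂ) ≠ 0 := by
    exact_mod_cast (by positivity : (3 * R / 4 : ℝ) ≠ 0)
  have h2 : HasDerivAt (Bl s₀ (3 * R / 4) c)
      (-(starRingEnd ℂ) (c - s₀) / ((3 * R / 4 : ℝ) : ℂ)) z := by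
    have h3 : HasDerivAt (fun z : ℂ => z - s₀) 1 z := (hasDerivAt_id z).sub_const s₀
    have h4 := ((h3.const_mul ((starRingEnd ℂ) (c - s₀))).const_sub
      (((3 * R / 4 : ℝ) : ℂ) ^ 2)).div_const ((3 * R / 4 : ℝ) : ℂ)
    rw [mul_one] at h4
    exact h4
  rw [logDeriv_apply, h2.deriv, Bl]
  have hne : ((3 * R / 4 : ℝ) : ℂ) ^ 2 - (starRingEnd ℂ) (c - s₀) * (z - s₀) ≠ 0 := by
    intro h0
    rw [h0, norm_zero] at h1
    nlinarith
  have h5 : -(starRingEnd ℂ) (c - s₀) / ((3 * R / 4 : ℝ) : ℂ) /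
      ((((3 * R / 4 : ℝ) : ℂ) ^ 2 - (starRingEnd ℂ) (c - s₀) * (z - s₀)) /
        ((3 * R / 4 : ℝ) : ℂ)) =
      -(starRingEnd ℂ) (c - s₀) /
        (((3 * R / 4 : ℝ) : ℂ) ^ 2 - (starRingEnd ℂ) (c - s₀) * (z - s₀)) := by
    field_simp
  rw [h5, norm_div, norm_neg, RCLike.norm_conj, div_le_div_iff₀ (by nlinarith) hR]
  nlinarith

/-- **Landau's lemma.** -/
theorem landau {s₀ : ℂ} {R M : ℝ} {F : ℂ → ℂ} (hR : 0 < R) (hM : 0 < M)
    (hF : DifferentiableOn ℂ F (ball s₀ R)) (h0 : F s₀ ≠ 0)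
    (hb : ∀ z ∈ ball s₀ R, ‖F z‖ ≤ Real.exp M * ‖F s₀‖) :
    ∃ S : Finset ℂ, (∀ z, z ∈ S ↔ z ∈ closedBall s₀ (R / 2) ∧ F z = 0) ∧
      (∑ c ∈ S, (analyticOrderNatAt F c : ℝ)) ≤ 3 * M ∧
      ∀ z ∈ closedBall s₀ (R / 4), F z ≠ 0 →
        ‖deriv F z / F z - ∑ c ∈ S, (analyticOrderNatAt F c : ℂ) / (z - c)‖ ≤ 54 * M / R := by
  classical
  have hs0B : s₀ ∈ ball s₀ R := mem_ball_self hR
  have hfin := zeros_finite (r := R / 2) (by linarith) hF ⟨s₀, hs0B, h0⟩
  set S : Finset ℂ := hfin.toFinset with hS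
  have hSmem : ∀ z, z ∈ S ↔ z ∈ closedBall s₀ (R / 2) ∧ F z = 0 := by
    intro z
    rw [hS, Set.Finite.mem_toFinset]
    rfl
  have hSn : ∀ c ∈ S, ‖c - s₀‖ ≤ R / 2 := by
    intro c hc
    have := ((hSmem c).1 hc).1
    rwa [mem_closedBall, dist_eq_norm] at this
  obtain ⟨g, hg, hgS, hFg⟩ := factor_fin S hF ⟨s₀, hs0B, h0⟩ (fun c hc => by
    rw [mem_ball, dist_eq_norm]
    linarith [hSn c hc])
  set m : ℂ → ℕ := fun c => analyticOrderNatAt F c with hm
  set r : ℝ := 3 * R / 4 with hr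
  have hr0 : 0 < r := by positivity
  set P : ℂ → ℂ := fun z => ∏ c ∈ S, Bl s₀ r c z ^ m c with hP
  set h : ℂ → ℂ := fun z => P z * g z with hh
  set N : ℕ := ∑ c ∈ S, m c with hN
  have hPd : Differentiable ℂ P := by
    rw [hP]
    exact Differentiable.fun_finsetProd fun c _ => (Bl_differentiable s₀ r c).pow _
  have hhd : DifferentiableOn ℂ h (ball s₀ R) := hPd.differentiableOn.mul hg
  -- bound on the circle
  have hcirc : ∀ z : ℂ, ‖z - s₀‖ = r → ‖h z‖ ≤ Real.exp M * ‖F s₀‖ := by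
    intro z hz
    have hzB : z ∈ ball s₀ R := by
      rw [mem_ball, dist_eq_norm, hz]
      linarith
    have h1 : ‖h z‖ = ‖F z‖ := by
      rw [hFg z]
      simp only [hh, hP, norm_mul, norm_prod, norm_pow]
      congr 1
      exact Finset.prod_congr rfl fun c hc => by rw [Bl_norm_circle hr0 hz]
    rw [h1]
    exact hb z hzB
  have hmax : ∀ z : ℂ, ‖z - s₀‖ ≤ r → ‖h z‖ ≤ Real.exp M * ‖F s₀‖ := by
    intro z hz
    have hd : DiffContOnCl ℂ h (ball s₀ r) := by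
      refine DifferentiableOn.diffContOnCl ?_
      rw [closure_ball s₀ hr0.ne']
      exact hhd.mono (closedBall_subset_ball (by linarith))
    refine Complex.norm_le_of_forall_mem_frontier_norm_le isBounded_ball hd ?_ ?_
    · intro w hw
      rw [frontier_ball s₀ hr0.ne', mem_sphere, dist_eq_norm] at hw
      exact hcirc w hw
    · rw [closure_ball s₀ hr0.ne', mem_closedBall, dist_eq_norm]
      exact hz
  -- the centre
  have hgs : ‖h s₀‖ = r ^ N * ‖g s₀‖ := by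
    have h1 : h s₀ = (∏ c ∈ S, (r : ℂ) ^ m c) * g s₀ := by
      simp only [hh, hP]
      congr 1
      exact Finset.prod_congr rfl fun c hc => by rw [Bl_center s₀ hr0]
    rw [h1, Finset.prod_pow_eq_pow_sum, norm_mul, norm_pow, Complex.norm_real, Real.norm_eq_abs,
      abs_of_pos hr0]
  have hFs : ‖F s₀‖ ≤ (R / 2) ^ N * ‖g s₀‖ := by
    rw [hFg s₀, norm_mul, norm_prod]
    refine mul_le_mul_of_nonneg_right ?_ (norm_nonneg _)
    rw [hN, ← Finset.prod_pow_eq_pow_sum]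
    refine Finset.prod_le_prod (fun _ _ => norm_nonneg _) fun c hc => ?_
    rw [norm_pow]
    refine pow_le_pow_left₀ (norm_nonneg _) ?_ _
    rw [norm_sub_rev]
    exact hSn c hc
  have hF0 : 0 < ‖F s₀‖ := norm_pos_iff.2 h0
  have hratio : (3 / 2 : ℝ) ^ N * ‖F s₀‖ ≤ ‖h s₀‖ := by
    calc (3 / 2 : ℝ) ^ N * ‖F s₀‖ ≤ (3 / 2 : ℝ) ^ N * ((R / 2) ^ N * ‖g s₀‖) := by gcongr
      _ = (3 / 2 * (R / 2)) ^ N * ‖g s₀‖ := by rw [mul_pow]; ring
      _ = ‖h s₀‖ := by
        rw [hgs, hr]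
        congr 2
        ring
  have hpow : (3 / 2 : ℝ) ^ N ≤ Real.exp M := by
    have h1 := hmax s₀ (by rw [sub_self, norm_zero]; exact hr0.le)
    have h2 := hratio.trans h1
    exact le_of_mul_le_mul_right h2 hF0
  have hNM : (N : ℝ) ≤ 3 * M := by
    have h1 : Real.log ((3 / 2 : ℝ) ^ N) ≤ M := by
      rw [Real.log_le_iff_le_exp (by positivity)]
      exact hpow
    rw [Real.log_pow] at h1
    have h2 : (1 / 3 : ℝ) ≤ Real.log (3 / 2) := by
      have h3 := Real.one_sub_inv_le_log_of_pos (by norm_num : (0 : ℝ) < 3 / 2)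
      norm_num at h3
      exact h3
    have h4 : (0 : ℝ) ≤ N := Nat.cast_nonneg N
    nlinarith
  have hsN : (∑ c ∈ S, (analyticOrderNatAt F c : ℝ)) = N := by
    rw [hN]
    push_cast
    rfl
  refine ⟨S, hSmem, by rw [hsN]; exact hNM, ?_⟩
  intro z hz hFz
  have hzn : ‖z - s₀‖ ≤ R / 4 := by
    rwa [mem_closedBall, dist_eq_norm] at hz
  have hzB : z ∈ ball s₀ R := by
    rw [mem_ball, dist_eq_norm]
    linarith
  have hgz : g z ≠ 0 := by
    intro h1
    apply hFz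
    rw [hFg, h1, mul_zero]
  have hh0 : ‖F s₀‖ ≤ ‖h s₀‖ := by
    refine le_trans ?_ hratio
    have : (1 : ℝ) ≤ (3 / 2 : ℝ) ^ N := one_le_pow₀ (by norm_num)
    nlinarith
  have hhs0 : h s₀ ≠ 0 := norm_pos_iff.1 (hF0.trans_le hh0)
  -- non-vanishing of h
  have hhne : ∀ w : ℂ, ‖w - s₀‖ ≤ R / 2 → h w ≠ 0 := by
    intro w hw
    have hwB : w ∈ ball s₀ R := by
      rw [mem_ball, dist_eq_norm]
      linarith
    refine mul_ne_zero ?_ ?_
    · rw [hP]
      refine Finset.prod_ne_zero_iff.2 fun c hc => pow_ne_zero _ ?_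
      intro h1
      have h2 := Bl_lower hR (hSn c hc) hw
      rw [Bl, div_eq_zero_iff] at h1
      rcases h1 with h1 | h1
      · rw [← hr, h1, norm_zero] at h2
        nlinarith
      · exact hr0.ne' (by exact_mod_cast h1)
    · intro h1
      have h2 : F w = 0 := by rw [hFg, h1, mul_zero]
      have h3 : w ∈ S := (hSmem w).2 ⟨by rw [mem_closedBall, dist_eq_norm]; exact hw, h2⟩
      exact hgS w h3 h1
  set H : ℂ → ℂ := fun w => h (s₀ + w) / h s₀ with hH
  have hHd : DifferentiableOn ℂ H (ball 0 (R / 2)) := by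
    refine DifferentiableOn.div_const ?_ _
    refine hhd.comp (by fun_prop) ?_
    intro w hw
    rw [mem_ball_zero_iff] at hw
    show s₀ + w ∈ ball s₀ R
    rw [mem_ball, dist_eq_norm, add_sub_cancel_left]
    linarith
  have hHne : ∀ w ∈ ball (0 : ℂ) (R / 2), H w ≠ 0 := by
    intro w hw
    rw [mem_ball_zero_iff] at hw
    exact div_ne_zero (hhne _ (by rw [add_sub_cancel_left]; exact hw.le)) hhs0
  have hH0 : H 0 = 1 := by
    rw [hH]
    show h (s₀ + 0) / h s₀ = 1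
    rw [add_zero, div_self hhs0]
  have hHb : ∀ w ∈ ball (0 : ℂ) (R / 2), ‖H w‖ ≤ Real.exp M := by
    intro w hw
    rw [mem_ball_zero_iff] at hw
    show ‖h (s₀ + w) / h s₀‖ ≤ _
    rw [norm_div, div_le_iff₀ (norm_pos_iff.2 hhs0)]
    refine (hmax _ (by rw [add_sub_cancel_left]; linarith)).trans ?_
    gcongr
  have hw : ‖z - s₀‖ ≤ R / 4 := hzn
  have hmain := Pool.Agent.Helper69.QRH.logDeriv_bound (r₁ := R / 4) (r₂ := 3 * R / 8)
    (by positivity) (by linarith) (by linarith) hM hHd hHne hH0 hHb hw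
  have hcalc : 2 * M * (3 * R / 8) / (R / 2 - 3 * R / 8) / (3 * R / 8 - R / 4) = 48 * M / R := by
    have h1 : R / 2 - 3 * R / 8 = R / 8 := by ring
    have h2 : 3 * R / 8 - R / 4 = R / 8 := by ring
    rw [h1, h2]
    field_simp
    ring
  rw [hcalc] at hmain
  -- derivative of H
  have hhz : DifferentiableAt ℂ h z := hhd.differentiableAt (isOpen_ball.mem_nhds hzB)
  have hHz : deriv H (z - s₀) / H (z - s₀) = logDeriv h z := by
    have h1 : HasDerivAt (fun w : ℂ => s₀ + w) 1 (z - s₀) := (hasDerivAt_id _).const_add s₀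
    have h2 : HasDerivAt h (deriv h z) (s₀ + (z - s₀)) := by
      rw [add_sub_cancel]
      exact hhz.hasDerivAt
    have h3 : HasDerivAt H (deriv h z * 1 / h s₀) (z - s₀) := (h2.comp _ h1).div_const _
    rw [h3.deriv, logDeriv_apply]
    show deriv h z * 1 / h s₀ / (h (s₀ + (z - s₀)) / h s₀) = _
    rw [add_sub_cancel]
    have := hhne z (by linarith)
    field_simp
  rw [hHz] at hmain
  -- logarithmic derivatives
  have hBne : ∀ c ∈ S, Bl s₀ r c z ≠ 0 := by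
    intro c hc h1
    have h2 := Bl_lower hR (hSn c hc) (by linarith : ‖z - s₀‖ ≤ R / 2)
    rw [Bl, div_eq_zero_iff] at h1
    rcases h1 with h1 | h1
    · rw [← hr, h1, norm_zero] at h2
      nlinarith
    · exact hr0.ne' (by exact_mod_cast h1)
  have hgzd : DifferentiableAt ℂ g z := hg.differentiableAt (isOpen_ball.mem_nhds hzB)
  have hlP : logDeriv P z = ∑ c ∈ S, (m c : ℂ) * logDeriv (Bl s₀ r c) z := by
    rw [hP, logDeriv_prod (f := fun c z => Bl s₀ r c z ^ m c)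
      (fun c hc => pow_ne_zero _ (hBne c hc))
      (fun c _ => ((Bl_differentiable s₀ r c).pow _) z)]
    exact Finset.sum_congr rfl fun c _ => logDeriv_fun_pow (Bl_differentiable s₀ r c z) _
  have hlh : logDeriv h z = ∑ c ∈ S, (m c : ℂ) * logDeriv (Bl s₀ r c) z + logDeriv g z := by
    rw [hh, logDeriv_mul (f := P) (g := g) z
      (by rw [hP]; exact Finset.prod_ne_zero_iff.2 fun c hc => pow_ne_zero _ (hBne c hc)) hgz
      (hPd z) hgzd, hlP]
  have hzS : ∀ c ∈ S, z - c ≠ 0 := by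
    intro c hc h1
    rw [sub_eq_zero] at h1
    rw [h1] at hFz
    exact hFz ((hSmem c).1 hc).2
  have hlF : deriv F z / F z = ∑ c ∈ S, (m c : ℂ) / (z - c) + logDeriv g z := by
    rw [← logDeriv_apply]
    have h1 : F = fun z => (∏ c ∈ S, (z - c) ^ m c) * g z := funext hFg
    conv_lhs => rw [h1]
    rw [logDeriv_mul (f := fun z => ∏ c ∈ S, (z - c) ^ m c) (g := g) z
      (Finset.prod_ne_zero_iff.2 fun c hc => pow_ne_zero _ (hzS c hc)) hgz
      (DifferentiableAt.fun_finsetProd fun c _ => by fun_prop) hgzd,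
      logDeriv_prod (f := fun c z => (z - c) ^ m c)
      (fun c hc => pow_ne_zero _ (hzS c hc)) (fun c _ => by fun_prop)]
    congr 1
    refine Finset.sum_congr rfl fun c _ => ?_
    rw [logDeriv_fun_pow (f := fun z => z - c) (by fun_prop), logDeriv_apply]
    have h3 : HasDerivAt (fun z : ℂ => z - c) 1 z := (hasDerivAt_id z).sub_const c
    rw [h3.deriv]
    ring
  have hdiff : deriv F z / F z - ∑ c ∈ S, (analyticOrderNatAt F c : ℂ) / (z - c) =
      logDeriv h z - ∑ c ∈ S, (m c : ℂ) * logDeriv (Bl s₀ r c) z := by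
    rw [hlF, hlh]
    simp only [hm]
    ring
  rw [hdiff]
  refine (norm_sub_le _ _).trans ?_
  have hsum : ‖∑ c ∈ S, (m c : ℂ) * logDeriv (Bl s₀ r c) z‖ ≤ 3 * M * (2 / R) := by
    refine (norm_sum_le _ _).trans ?_
    calc ∑ c ∈ S, ‖(m c : ℂ) * logDeriv (Bl s₀ r c) z‖ ≤ ∑ c ∈ S, (m c : ℝ) * (2 / R) := by
          refine Finset.sum_le_sum fun c hc => ?_
          rw [norm_mul, Complex.norm_natCast]
          exact mul_le_mul_of_nonneg_left (Bl_logDeriv hR (hSn c hc) hzn) (Nat.cast_nonneg _)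
      _ = (N : ℝ) * (2 / R) := by
          rw [← Finset.sum_mul, hN]
          push_cast
          rfl
      _ ≤ 3 * M * (2 / R) := by gcongr
  calc ‖logDeriv h z‖ + ‖∑ c ∈ S, (m c : ℂ) * logDeriv (Bl s₀ r c) z‖
      ≤ 48 * M / R + 3 * M * (2 / R) := add_le_add hmain hsum
    _ = 54 * M / R := by ring

end Pool.Agent.Helper33.KSZ
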